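import Pool.Agent.Helper13_SA.SimA

/-! Part of module SIM: the bound for W until 1525. -/

namespace SA.H88W

open SA.H13

def runW : List ℕ → List ℕ → List ℕ → ℕ → ℕ → ℕ → ℕ → ℕ → ℕ → ℕ → Bool
  | [], _, _, _, _, _, _, _, _, _ => true
  | k :: ks, hl, hh, sl, sh, el, eh, pc, y, n =>
    let bl := (el + (sl - sumk k hl)) / (56 - k)
    let bh := (eh + (sh - sumk k hh)) / (56 - k) + 1
    let sl' := sl - nth hl 55 + bl
    let sh' := sh - nth hh 55 + bh
    let d := (56 * X - sl') * Y / Tm + 1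
    let d' := (56 * X - sh') * Y / (Tm + 1)
    (Nat.ble n 244 || Nat.ble (eh + sh) (pc + y)) &&
    (Nat.ble k 55 && (Nat.ble (nth hh k) bl && ((Nat.ble k 0 || Nat.ble (bh + 1) (nth hl (k - 1))) &&
      (Nat.ble sh' (56 * X) && (Nat.ble d el &&
        runW ks (ins k bl hl) (ins k bh hh) sl' sh' (el - d) (eh - d') (el + sl)
          (cond (Nat.ble 171 n) (y * 10 ^ 9 / 1038066563) y) (n + 1))))))

set_option maxRecDepth 100000 in
theorem runW_true : runW ksl z56 z56 0 0 (56 * X - (56 * X * Y / Tm + 1))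
    (56 * X - 56 * X * Y / (Tm + 1)) 0 (224 * X * 254 / 10 ^ 7) 0 = true := by
  decide +kernel

theorem runW_spec (T x0 C : ℝ) (h1 : Tlo ≤ T) (h2 : T ≤ Thi) (hx : 0 < x0)
    (hx' : x0 ≤ 1.038066563) : ∀ (ks : List ℕ) (n : ℕ) (hl hh : List ℕ)
    (sl sh el eh pc y : ℕ), Inv T n hl hh sl sh el eh →
    ((n = 0 → pc = 0) ∧ (0 < n → (pc : ℝ) ≤ X * cst T (n - 1))) →
    (y : ℝ) ≤ 224 * X * (C / x0 ^ (n - 171)) →
    runW ks hl hh sl sh el eh pc y n = true →
    ∀ i, i < ks.length → 245 ≤ n + i → Wn T (n + i) ≤ 4 * (C / x0 ^ (n + i - 171))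
  | [], _, _, _, _, _, _, _, _, _, _, _, _, _, i, hi => by simp at hi
  | k :: ks, n, hl, hh, sl, sh, el, eh, pc, y, I, hpc, hy, hr, i, hi => by
      intro hni
      simp only [runW, Bool.and_eq_true, Bool.or_eq_true, Nat.ble_eq] at hr
      obtain ⟨c0, c1, c2, c3, c4, c5, c6⟩ := hr
      obtain ⟨v, q, I'⟩ := step T h1 h2 n k hl hh sl sh el eh I _ _ _ _ _ _ rfl rfl rfl rfl rfl rfl
        c1 c2 c3 c4 c5
      have hX := X_pos
      have hlo : ((el + sl : ℕ) : ℝ) ≤ X * cst T n := by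
        unfold cst
        rw [mul_add, Finset.mul_sum, I.sl, sumk_eq]
        push_cast
        exact add_le_add I.el (Finset.sum_le_sum (fun j hj => I.ql j (Finset.mem_range.1 hj)))
      have hhi : X * cst T n ≤ ((eh + sh : ℕ) : ℝ) := by
        unfold cst
        rw [mul_add, Finset.mul_sum, I.sh, sumk_eq]
        push_cast
        exact add_le_add I.eh (Finset.sum_le_sum (fun j hj => I.qh j (Finset.mem_range.1 hj)))
      cases i with
      | zero =>
        have hn : 245 ≤ n := by omega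
        rw [Nat.add_zero]
        have c0' : eh + sh ≤ pc + y := by
          rcases c0 with h | h
          · omega
          · exact h
        have c0r : ((eh + sh : ℕ) : ℝ) ≤ (pc : ℝ) + y := by exact_mod_cast c0'
        have h3 := hpc.2 (by omega)
        have h4 : X * (cst T n - cst T (n - 1)) ≤ X * (224 * (C / x0 ^ (n - 171))) := by
          nlinarith
        have h5 := le_of_mul_le_mul_left h4 hX
        unfold Wn
        linarith
      | succ i =>
        have hy' : ((cond (Nat.ble 171 n) (y * 10 ^ 9 / 1038066563) y : ℕ) : ℝ) ≤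
            224 * X * (C / x0 ^ (n + 1 - 171)) := by
          rcases Nat.lt_or_ge n 171 with h | h
          · have e : Nat.ble 171 n = false := by
              rw [Bool.eq_false_iff]
              intro hc
              rw [Nat.ble_eq] at hc
              omega
            rw [e, cond_false, show n + 1 - 171 = 0 by omega]
            rw [show n - 171 = 0 by omega] at hy
            exact hy
          · have e : Nat.ble 171 n = true := by rw [Nat.ble_eq]; exact h
            rw [e, cond_true, show n + 1 - 171 = (n - 171) + 1 by omega, pow_succ x0, ← div_div]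
            have e1 : ((y * 10 ^ 9 / 1038066563 : ℕ) : ℝ) * 1038066563 ≤ (y : ℝ) * 10 ^ 9 := by
              exact_mod_cast Nat.div_mul_le_self (y * 10 ^ 9) 1038066563
            have e2 : ((y * 10 ^ 9 / 1038066563 : ℕ) : ℝ) * 1.038066563 ≤ (y : ℝ) := by
              norm_num at e1 ⊢
              linarith
            have e3 : ((y * 10 ^ 9 / 1038066563 : ℕ) : ℝ) * x0 ≤ (y : ℝ) :=
              (mul_le_mul_of_nonneg_left hx' (Nat.cast_nonneg _)).trans e2
            have e4 := e3.trans hy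
            rw [show 224 * (X : ℝ) * (C / x0 ^ (n - 171) / x0)
              = 224 * X * (C / x0 ^ (n - 171)) / x0 by ring, le_div_iff₀ hx]
            exact e4
        have := runW_spec T x0 C h1 h2 hx hx' ks (n + 1) _ _ _ _ _ _ _ _ I'
          ⟨fun h => by omega, fun _ => by rw [Nat.add_sub_cancel]; exact hlo⟩ hy' c6 i
          (by simpa using hi) (by omega)
        rw [show n + (i + 1) = n + 1 + i by omega]
        exact this

theorem castX (Z : ℕ) (C : ℝ) (hC : 2.54 / 10 ^ 5 ≤ C) :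
    ((224 * Z * 254 / 10 ^ 7 : ℕ) : ℝ) ≤ 224 * Z * C := by
  have e1 : ((224 * Z * 254 / 10 ^ 7 : ℕ) : ℝ) * 10 ^ 7 ≤ 224 * Z * 254 := by
    exact_mod_cast Nat.div_mul_le_self (224 * Z * 254) (10 ^ 7)
  have e2 : 224 * (Z : ℝ) * (2.54 / 10 ^ 5) ≤ 224 * Z * C :=
    mul_le_mul_of_nonneg_left hC (by positivity)
  nlinarith

theorem wle (T x0 C : ℝ) (h1 : Tlo ≤ T) (h2 : T ≤ Thi) (hx : 0 < x0)
    (hx' : x0 ≤ 1.038066563) (hC : 2.54 / 10 ^ 5 ≤ C) : ∀ n, 245 ≤ n → n < 1525 →
    Wn T n ≤ 4 * (C / x0 ^ (n - 171)) := by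
  intro n h3 h4
  have hX := X_pos
  have hlen : ksl.length = 1525 := by
    unfold ksl; rw [List.length_append, List.length_replicate]; rfl
  have hy : ((224 * X * 254 / 10 ^ 7 : ℕ) : ℝ) ≤ 224 * X * (C / x0 ^ (0 - 171)) := by
    rw [Nat.zero_sub, pow_zero, div_one]
    exact castX X C hC
  have := runW_spec T x0 C h1 h2 hx hx' ksl 0 _ _ _ _ _ _ _ _ (inv_zero T h1 h2)
    ⟨fun _ => rfl, fun h => absurd h (lt_irrefl _)⟩ hy runW_true n (by rw [hlen]; exact h4)
    (by omega)
  rwa [Nat.zero_add] at this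

/-- the form used in SIM -/
theorem wle' (T x0 : ℝ) (h1 : Tlo ≤ T) (h2 : T ≤ Thi) (hx : 0 < x0)
    (hx' : x0 ≤ 1.038066563) (hC : 2.54 / 10 ^ 5 ≤ Cn T x0 171) : ∀ n, 245 ≤ n → n < 1525 →
    Wn T n ≤ 4 * (Cn T x0 171 / x0 ^ (n - 171)) :=
  wle T x0 _ h1 h2 hx hx' hC

end SA.H88W
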