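import Pool.Agent.Helper88_SA.BaseP

/-! Part N of P: numerical facts. -/

namespace SA

open Filter Topology

/-! ## roots -/

/-- N1 -/
def RootsStmt : Prop := ∃ x0f zf : ℝ → ℝ, ContinuousOn x0f (Set.Icc Tlo Thi) ∧
  ContinuousOn zf (Set.Icc Tlo Thi) ∧
  ∀ T ∈ Set.Icc Tlo Thi, ∃ th, Roots T (x0f T) (zf T) th

/-! ## numerical facts about the roots and the responses -/

structure NumRoot (T x0 z : ℝ) (th : ℂ) : Prop where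
  T_lo : 36.954776 ≤ T
  T_hi : T ≤ 36.954777
  x0_lo : 1.0380665629 ≤ x0
  x0_hi : x0 ≤ 1.038066563
  x0_pow : ∀ t, t < 26 → (X0lo t : ℝ) / 10 ^ 10 ≤ x0 ^ t ∧ x0 ^ t ≤ (X0hi t : ℝ) / 10 ^ 10
  z_lo : 0.9727488919 ≤ z
  z_hi : z ≤ 0.972748892
  ratio : 1.0671475 ≤ x0 / z
  th_pos : 0 < ‖th‖
  rho_lo : 1.0000099 ≤ x0 / ‖th‖
  rho_hi : x0 / ‖th‖ ≤ 1.00000992
  omg_enc : |omg th - 0.128606789191749| ≤ 1 / 10 ^ 12
  per_enc : |per th - 48.855782394283| ≤ 1 / 10 ^ 9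

/-- N2 -/
def NumRootStmt : Prop := ∀ (T x0 z : ℝ) (th : ℂ), Tlo ≤ T → T ≤ Thi → Roots T x0 z th →
  NumRoot T x0 z th

/-- theta z_d, scale 10^16 -/
def ztRe : List ℤ := [0, 5480430449042, 10201803824882, 14140548517412, 17288294151186,
  19650921863133, 21247437023561, 22108696632335, 22276023809756, 21799741416434, 20737655926090]
def ztIm : List ℤ := [0, -3397064549598, -7259025748287, -11471359380456, -15921738644624,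
  -20501814234814, -25108797661578, -29646834654225, -34028160055187, -38174030006106,
  -42015431370504]

/-- - x0 * cdc, scale 10^18 -/
def cT : List ℤ := [0, 8720751616417, 16883532986951, 24508805236422, 31616279167152,
  38224942773768, 44353087749023, 50018335017629, 55237659333750, 60027412976487, 64403348576436]

structure NumKick (T x0 z : ℝ) (th : ℂ) : Prop where
  cE : ∀ d : ℕ, 1 ≤ d → d ≤ 10 → |x0 * cdc T x0 d + (cT.getD d 0 : ℝ) / 10 ^ 18| ≤ 1 / 10 ^ 15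
  cd : ∀ d : ℕ, 1 ≤ d → d ≤ 10 → cdc T x0 d ≤ 0 ∧ - (8.73 / 10 ^ 6) * d ≤ x0 * cdc T x0 d
  ze : ∀ d : ℕ, 1 ≤ d → d ≤ 10 → zec T z d < 0 ∧ - (7.2 / 10 ^ 6) * d ≤ z * zec T z d
  zd : ∀ d : ℕ, 1 ≤ d → d ≤ 10 →
    ‖th * zdc T th d - ⟨(ztRe.getD d 0 : ℝ) / 10 ^ 16, (ztIm.getD d 0 : ℝ) / 10 ^ 16⟩‖ ≤ 1 / 10 ^ 14

/-- N3 -/
def NumKickStmt : Prop := ∀ (T x0 z : ℝ) (th : ℂ), Tlo ≤ T → T ≤ Thi → Roots T x0 z th →
  NumKick T x0 z th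

/-- N4: the table of responses -/
def TabStmt : Prop := ∀ (T x0 z : ℝ) (th : ℂ), Tlo ≤ T → T ≤ Thi → Roots T x0 z th →
  ∀ d l : ℕ, 1 ≤ d → d ≤ 10 → l < 1200 →
    |x0 ^ (l + 1) * Gd T x0 z th d l - (gT d l : ℝ) / 10 ^ 10| ≤ 2 / 10 ^ 10

/-- N5: size of the rest functional after 1200 steps -/
noncomputable def Ebar (x0 : ℝ) : ℝ :=
  ∑ d ∈ Finset.Icc (1 : ℕ) 55, (56 - (d : ℝ)) * (4.2 * x0 ^ (d + 10)) + 56 * 4.2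

def HorStmt : Prop := ∀ (T x0 z : ℝ) (th : ℂ), Tlo ≤ T → T ≤ Thi → Roots T x0 z th →
  x0 ^ 1200 * (∑ d ∈ Finset.Icc (1 : ℕ) 55, |(brest T x0 z th 1200).r (56 - d)| * (4.2 * x0 ^ (d + 10))
    + |(brest T x0 z th 1200).R| * (39 * Ebar x0) + |(brest T x0 z th 1200).E| * Ebar x0) ≤ 4.5 / 10 ^ 4

/-! ## cosines -/

/-- N6: cos and sin in the middle of the cells -/
def CSStmt : Prop := ∀ w : ℝ, |w - 0.128606789191749| ≤ 1 / 10 ^ 12 → ∀ c : ℤ, -64 ≤ c → c < 88 →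
  |Real.cos (w * (2 * c + 1) / 16) - (Ct c : ℝ) / 10 ^ 10| ≤ 2 / 10 ^ 10 ∧
  |Real.sin (w * (2 * c + 1) / 16) - (St_ c : ℝ) / 10 ^ 10| ≤ 2 / 10 ^ 10

/-- N7: consequences on the widened cells -/
structure NumCos (w : ℝ) : Prop where
  up : ∀ c : ℤ, -64 ≤ c → c < 88 → ∀ φ : ℝ, (c : ℝ) / 8 - 0.035 ≤ φ → φ ≤ ((c : ℝ) + 1) / 8 + 0.035 →
    Real.cos (w * φ) ≤ (cosmaxN c : ℝ) / 10 ^ 10
  lo : ∀ c : ℤ, -48 ≤ c → c < 88 → ∀ φ : ℝ, (c : ℝ) / 8 - 0.035 ≤ φ → φ ≤ ((c : ℝ) + 1) / 8 + 0.035 →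
    (cminN c : ℝ) / 10 ^ 10 ≤ Real.cos (w * φ)
  far : ∀ φ : ℝ, -37.95 ≤ φ → φ ≤ -7.965 → Real.cos (w * φ) ≤ 0.5197

def NumCosStmt : Prop := CSStmt → ∀ w : ℝ, |w - 0.128606789191749| ≤ 1 / 10 ^ 12 → NumCos w

/-- N8: effect of the pauses on amplitude and phase, cell by cell -/
structure NumCell (T x0 : ℝ) (th : ℂ) : Prop where
  kc : ∀ c : ℤ, -47 ≤ c → c < 24 → ∀ d : ℕ, 1 ≤ d → d ≤ dmt c → ∀ φ : ℝ, (c : ℝ) / 8 ≤ φ →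
    φ ≤ ((c : ℝ) + 1) / 8 →
    (kct d c : ℝ) / 10 ^ 14 ≤ (th * zdc T th d * Complex.exp (-(omg th * φ * Complex.I))).re
      - 1.07 * x0 * |cdc T x0 d| - ‖th * zdc T th d‖ / 10 ^ 3
  dr : ∀ c : ℤ, -47 ≤ c → c < 24 → ∀ d : ℕ, 1 ≤ d → d ≤ 10 → ∀ φ : ℝ, (c : ℝ) / 8 ≤ φ →
    φ ≤ ((c : ℝ) + 1) / 8 →
    |(th * zdc T th d * Complex.exp (-(omg th * φ * Complex.I))).im| * 1.002 / (0.9 * omg th)
      ≤ d * ((drt c : ℝ) / 10 ^ 9)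
  zm : ∀ d : ℕ, 1 ≤ d → d ≤ 10 → 1.0004 * ‖th * zdc T th d‖ ≤ (zm d : ℝ) / 10 ^ 14

def NumCellStmt : Prop := CSStmt → ∀ (T x0 z : ℝ) (th : ℂ), NumRoot T x0 z th →
  NumKick T x0 z th → NumCell T x0 th

/-! ## integer checks.  All of them are true (checked with #eval); the point is to prove them in the
kernel in reasonable time, possibly through faster equivalent functions. -/

/-- N9a -/
def IntE1Stmt : Prop := ∀ c : ℤ, -304 ≤ c → c < 88 → e1ok c = true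

/-- N9b -/
def IntE2Stmt : Prop := ∀ c : ℤ, -56 ≤ c → c < 24 → e2ok c = true

/-- N9c -/
structure IntW : Prop where
  wpos : ∀ c : ℤ, -304 ≤ c → c < 88 → (c < -24 ∨ 24 ≤ c) → 0 < Wt c
  wlow : ∀ c : ℤ, -304 ≤ c → c < 88 → - 10 ^ 9 ≤ Wt c
  w956 : ∀ c : ℤ, -64 ≤ c → c < 88 →
    9560 * max 0 (cosmaxN c) / 10 ^ 4 + (Yt c : ℤ) + 5 * 10 ^ 6 + 10 ^ 8 < 10 ^ 10
def IntWStmt : Prop := IntW

/-- N9d -/
structure IntPass : Prop where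
  passD : ∀ c : ℤ, 15 ≤ c → c < 24 → pass Dt c ≤ 9100000
  passR : ∀ c : ℤ, 15 ≤ c → c < 24 → pass (fun c => drt c * Dt c) c ≤ 27 * 10 ^ 12
  Dmax : ∀ c : ℤ, Dt c ≤ 2000000
  dmax : ∀ c : ℤ, dmt c ≤ 9
  kcpos : ∀ c : ℤ, -47 ≤ c → c < 24 → ∀ d, 1 ≤ d → d ≤ dmt c → 0 < kct d c
def IntPassStmt : Prop := IntPass

/-- N9e -/
structure IntKap : Prop where
  kap : ∀ d l : ℕ, 1 ≤ d → d ≤ 10 → l < 1200 →
    - gT d l + 2 ≤ d * (kap_ l : ℤ) ∧ gT d l + 2 ≤ d * (kpp_ l : ℤ)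
  kpp : ∑ l ∈ Finset.range 1200, kpp_ l ≤ 4730000000
def IntKapStmt : Prop := IntKap

/-- N9f -/
structure IntLo : Prop where
  loD : ∀ cb, 79 ≤ cb → cb ≤ 87 → loDok cb = true
  loU : ∀ cb, 79 ≤ cb → cb ≤ 87 → loUok cb = true
  loOwn : ∀ cb, 79 ≤ cb → cb ≤ 87 → loOwnok cb = true
def IntLoStmt : Prop := IntLo

/-- N9g -/
def IntLoPastStmt : Prop := ∀ cb q, 79 ≤ cb → cb ≤ 87 → 1 ≤ q → q ≤ 25 → loPastok cb q = true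

/-- N9h: cells that can be reached; an interval of length 1 + 0.56 (q + 1) -/
structure IntQ : Prop where
  lo : ∀ q : ℕ, q ≤ 25 → (qelo q : ℝ) + 1 / 1000 ≤
    - (8 * (q : ℝ) * (48855782394283 / 10 ^ 12) - qF q) - 28 / 100 * ((q : ℝ) + 1)
  hi : ∀ q : ℕ, q ≤ 25 → 1 - (8 * (q : ℝ) * (48855782394283 / 10 ^ 12) - qF q)
    + 28 / 100 * ((q : ℝ) + 1) + 1 / 1000 ≤ (qehi q : ℝ) + 1
def IntQStmt : Prop := IntQ

/-! ## simulation -/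

/-- N10: the flow until 1525 -/
def SimAStmt : Prop := ∀ T : ℝ, Tlo ≤ T → T ≤ Thi → (∀ n, n < 1525 → Valid T n) ∧
  (∀ n, n < 171 → kap T n = kap0 n) ∧ (∀ n, 171 ≤ n → n < 1525 → kap T n = 0)

/-- N11 -/
def SimStmt : Prop := ∀ (T x0 z : ℝ) (th : ℂ), Tlo ≤ T → T ≤ Thi → Roots T x0 z th → Sim T x0 z th

/-- N12: signs at the end points -/
def SignStmt : Prop :=
  (∀ (x0 z : ℝ) (th : ℂ), Roots Tlo x0 z th → ztn Tlo x0 z 1525 < 0) ∧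
  (∀ (x0 z : ℝ) (th : ℂ), Roots Thi x0 z th → 1 / 10 ^ 40 < ztn Thi x0 z 1525)

end SA
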