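import Pool.Agent.Helper88_SA.StmtA
import Pool.Agent.Helper88_SA.StmtN

/-! Part C of P: analysis.  All statements are indexed by k, the state is n = 1525 + k. -/

namespace SA

open Filter Topology

/-- all results of part A -/
structure AlgA : Prop where
  sort : SortStmt
  bar : BarStmt
  barge : BarGeStmt
  top : TopStmt
  topset : TopSetStmt
  qzero : QzeroStmt
  cstep : CstepStmt
  pds : PdStmt
  modr : ModRStmt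
  modc : ModCStmt
  wform : WformStmt
  nbound : NboundStmt
  wpos : WposStmt
  ebd : EbdStmt

/-- integer checks and tables of part N -/
structure NumA : Prop where
  e1 : IntE1Stmt
  e2 : IntE2Stmt
  w : IntW
  pass : IntPass
  kap : IntKap
  lo : IntLo
  past : IntLoPastStmt
  q : IntQ
  tab : TabStmt
  hor : HorStmt

/-- numerical facts about the parameters -/
structure Ctx (T x0 z : ℝ) (th : ℂ) : Prop where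
  Tl : Tlo ≤ T
  Tu : T ≤ Thi
  rt : Roots T x0 z th
  nr : NumRoot T x0 z th
  nk : NumKick T x0 z th
  nc : NumCos (omg th)
  ncell : NumCell T x0 th
  sim : Sim T x0 z th

/-- C0: assembly -/
def CtxStmt : Prop := ∀ (T x0 z : ℝ) (th : ℂ), Tlo ≤ T → T ≤ Thi → Roots T x0 z th → Ctx T x0 z th

/-- the part of PP known before the analysis of the step k -/
structure Pre (T x0 z : ℝ) (th : ℂ) (k : ℕ) : Prop where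
  Cpos : 0 < Cn T x0 (1525 + k)
  Alo : 0.9 ≤ ‖xin T x0 th (1525 + k)‖
  Ahi : ‖xin T x0 th (1525 + k)‖ ≤ 1.0573
  zlo : 0 ≤ ztn T x0 z (1525 + k)
  zhi : ztn T x0 z (1525 + k) < 3 / 10 ^ 4

noncomputable def Ck (T x0 : ℝ) (k : ℕ) : ℝ := Cn T x0 (1525 + k)
noncomputable def Am (T x0 : ℝ) (th : ℂ) (k : ℕ) : ℝ := ‖xin T x0 th (1525 + k)‖
noncomputable def Dh (T x0 : ℝ) (k : ℕ) : ℝ := Dn T (1525 + k) / Cn T x0 (1525 + k)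
noncomputable def pih (T x0 : ℝ) (k d : ℕ) : ℝ := pd T (1525 + k) d / Cn T x0 (1525 + k)
/-- drift of the phase in the step k -/
noncomputable def dph (T x0 : ℝ) (th : ℂ) (k : ℕ) : ℝ := ph T x0 th (k + 1) - ph T x0 th k + 1
/-- guaranteed reduction of the amplitude in the step k -/
noncomputable def kk (T x0 : ℝ) (th : ℂ) (k : ℕ) : ℝ :=
  ∑ d ∈ Finset.Icc (1 : ℕ) 55, (kct d (cell T x0 th k) : ℝ) / 10 ^ 14 * pih T x0 k d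
/-- maximal reduction -/
noncomputable def zz (T x0 : ℝ) (k : ℕ) : ℝ :=
  ∑ d ∈ Finset.Icc (1 : ℕ) 55, (zm d : ℝ) / 10 ^ 14 * pih T x0 k d
/-- first index of the cycle j -/
noncomputable def ref (T x0 : ℝ) (th : ℂ) (j : ℕ) : ℕ := sInf {i : ℕ | (j : ℤ) ≤ cyc T x0 th i}
noncomputable def KK (T x0 : ℝ) (th : ℂ) (j : ℕ) : ℝ :=
  ∑ i ∈ Finset.Ico (ref T x0 th j) (ref T x0 th (j + 1)), kk T x0 th i

/-! ## single steps -/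

/-- C1: polar representation -/
def PhrepStmt : Prop := ∀ (T x0 z : ℝ) (th : ℂ), Ctx T x0 z th → ∀ k,
  (∀ i, i ≤ k → xin T x0 th (1525 + i) ≠ 0) →
  xin T x0 th (1525 + k) = (Am T x0 th k : ℂ) * Complex.exp ((omg th * ph T x0 th k : ℝ) * Complex.I) ∧
  xin T x0 th (1525 + k) = (Am T x0 th k : ℂ) * Complex.exp ((omg th * pp T x0 th k : ℝ) * Complex.I) ∧
  (Zn T th (1525 + k)).re
    = - (Cn T x0 (1525 + k) * (Am T x0 th k * Real.cos (omg th * pp T x0 th k)))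

/-- C2: cells -/
def CycbStmt : Prop := ∀ (T x0 z : ℝ) (th : ℂ), Ctx T x0 z th → ∀ k,
  11 - per th ≤ pp T x0 th k ∧ pp T x0 th k < 11 ∧
  (cell T x0 th k : ℝ) / 8 ≤ pp T x0 th k ∧ pp T x0 th k < ((cell T x0 th k : ℝ) + 1) / 8 ∧
  -304 ≤ cell T x0 th k ∧ cell T x0 th k < 88 ∧ cyc T x0 th 0 = 0 ∧ 10 ≤ pp T x0 th 0

/-- C3: the modes in one step -/
def MstepStmt : Prop := ∀ (T x0 z : ℝ) (th : ℂ), Ctx T x0 z th → ∀ n, (∀ m, m ≤ n → Valid T m) →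
  x0 * Cn T x0 (n + 1) = Cn T x0 n + ∑ d ∈ Finset.Icc (1 : ℕ) 55, pd T n d * (x0 * cdc T x0 d) ∧
  z * zn T z (n + 1) = zn T z n + ∑ d ∈ Finset.Icc (1 : ℕ) 55, pd T n d * (z * zec T z d) ∧
  th * Zn T th (n + 1)
    = Zn T th n + ∑ d ∈ Finset.Icc (1 : ℕ) 55, (pd T n d : ℂ) * (th * zdc T th d)

/-- C4 -/
def StepCStmt : Prop := ∀ (T x0 z : ℝ) (th : ℂ), Ctx T x0 z th → ∀ n, (∀ m, m ≤ n → Valid T m) →
  0 < Cn T x0 n → kap T n ≤ 10 → Dn T n ≤ 2 * Cn T x0 n →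
  Cn T x0 n - 9 / 10 ^ 6 * Dn T n ≤ x0 * Cn T x0 (n + 1) ∧ x0 * Cn T x0 (n + 1) ≤ Cn T x0 n ∧
  0 < Cn T x0 (n + 1) ∧
  (ztn T x0 z n ≤ 0 → ztn T x0 z (n + 1) ≤ 0) ∧
  (2.5 / 10 ^ 4 < ztn T x0 z n → 2.5 / 10 ^ 4 < ztn T x0 z (n + 1)) ∧
  (Dn T n = 0 → x0 * Cn T x0 (n + 1) = Cn T x0 n ∧
    ztn T x0 z (n + 1) = x0 / z * ztn T x0 z n ∧
    ‖xin T x0 th (n + 1)‖ = x0 / ‖th‖ * ‖xin T x0 th n‖)

/-- C5 -/
def StepAStmt : Prop := ∀ (T x0 z : ℝ) (th : ℂ), Ctx T x0 z th → ∀ k,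
  (∀ i, i ≤ k → PP T x0 z th i) →
  Am T x0 th (k + 1) ≤ 1.00000992 * Am T x0 th k - kk T x0 th k ∧
  Am T x0 th k - zz T x0 k ≤ Am T x0 th (k + 1) ∧ 0.89 ≤ Am T x0 th (k + 1) ∧
  |dph T x0 th k| ≤ (drt (cell T x0 th k) : ℝ) / 10 ^ 9 * Dh T x0 k ∧
  0 ≤ kk T x0 th k ∧ 0 ≤ zz T x0 k ∧ zz T x0 k ≤ 6.46 / 10 ^ 4 * Dh T x0 k ∧
  0 ≤ Dh T x0 k ∧ Dh T x0 k ≤ (Dt (cell T x0 th k) : ℝ) / 10 ^ 6

/-! ## windows and cycles -/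

/-- C6 -/
def WinStmt : Prop := ∀ (T x0 z : ℝ) (th : ℂ), Ctx T x0 z th → ∀ k, HH T x0 z th k →
  (∀ i, i < k → cyc T x0 th i ≤ cyc T x0 th (i + 1) ∧ cyc T x0 th (i + 1) ≤ cyc T x0 th i + 1) ∧
  (∀ q : ℤ, ∑ i ∈ (Finset.range k).filter (fun i => cyc T x0 th i = q), Dh T x0 i ≤ 9.1) ∧
  (∀ q : ℤ, ∑ i ∈ (Finset.range k).filter (fun i => cyc T x0 th i = q), |dph T x0 th i| ≤ 0.027)

/-- C7 -/
def DriftStmt : Prop := ∀ (T x0 z : ℝ) (th : ℂ), Ctx T x0 z th → ∀ k, HH T x0 z th k →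
  ∀ i1 i2, i1 ≤ i2 → i2 ≤ k → cyc T x0 th i1 ≤ cyc T x0 th i2 ∧
  |ph T x0 th i1 - ph T x0 th i2 - ((i2 : ℝ) - i1)|
    ≤ 0.027 * ((cyc T x0 th i2 : ℝ) - cyc T x0 th i1 + 1) ∧
  ∑ i ∈ Finset.Ico i1 i2, Dh T x0 i ≤ 9.1 * ((cyc T x0 th i2 : ℝ) - cyc T x0 th i1 + 1) ∧
  (i2 ≤ i1 + 1300 → cyc T x0 th i2 ≤ cyc T x0 th i1 + 27) ∧
  (i2 ≤ i1 + 1200 → cyc T x0 th i2 ≤ cyc T x0 th i1 + 25)

/-- C8: going back in the same cycle (or to the last index of the previous one) -/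
def BackStmt : Prop := ∀ (T x0 z : ℝ) (th : ℂ), Ctx T x0 z th → ∀ k, HH T x0 z th k →
  ∀ t, t ≤ k → cell T x0 th k + 8 * t < 88 →
  |ph T x0 th (k - t) - ph T x0 th k - t| ≤ 0.027 ∧ cyc T x0 th k - 1 ≤ cyc T x0 th (k - t) ∧
  (cell T x0 th k + 8 * t < 80 → cyc T x0 th (k - t) = cyc T x0 th k)

/-- C9 -/
def RefStmt : Prop := ∀ (T x0 z : ℝ) (th : ℂ), Ctx T x0 z th → ∀ k, HH T x0 z th k →
  0 ≤ cyc T x0 th k ∧ ref T x0 th 0 = 0 ∧ ∀ j : ℕ, (j : ℤ) ≤ cyc T x0 th k →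
    ref T x0 th j ≤ k ∧ cyc T x0 th (ref T x0 th j) = j ∧ 9.96 ≤ pp T x0 th (ref T x0 th j) ∧
    79 ≤ cell T x0 th (ref T x0 th j) ∧
    (∀ i, i < ref T x0 th j → cyc T x0 th i < j) ∧
    (∀ i, ref T x0 th j ≤ i → i ≤ k → (j : ℤ) ≤ cyc T x0 th i) ∧
    ((j : ℤ) + 1 ≤ cyc T x0 th k →
      ref T x0 th (j + 1) = ref T x0 th j + 48 ∨ ref T x0 th (j + 1) = ref T x0 th j + 49) ∧
    (cyc T x0 th k = j → k ≤ ref T x0 th j + 48)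

/-- C10 -/
def SepStmt : Prop := ∀ (T x0 z : ℝ) (th : ℂ), Ctx T x0 z th → ∀ k, HH T x0 z th k →
  (∀ m, 171 ≤ m → m < 1525 + k → kap T m ≤ 10) ∧
  (∀ m m', 171 ≤ m → m < m' → m' < 1525 + k → 0 < kap T m → 0 < kap T m' →
    m' ≤ m + 9 ∨ m + 39 ≤ m')

/-- C11 -/
def ProdStmt : Prop := ∀ (T x0 z : ℝ) (th : ℂ), Ctx T x0 z th → ∀ k, HH T x0 z th k →
  (∀ m, 171 ≤ m → m ≤ 1525 + k → 0 < Cn T x0 m) ∧
  (∀ m1 m2, 171 ≤ m1 → m1 ≤ m2 → m2 ≤ 1525 + k → Cn T x0 m2 * x0 ^ (m2 - m1) ≤ Cn T x0 m1) ∧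
  (∀ i1 i2, i1 ≤ i2 → i2 ≤ k → i2 ≤ i1 + 1300 → Ck T x0 i1 ≤
    Ck T x0 i2 * x0 ^ (i2 - i1) * (1 + ((cyc T x0 th i2 : ℝ) - cyc T x0 th i1 + 1) / 10 ^ 4)) ∧
  (∀ m1 m2, 171 ≤ m1 → m1 ≤ m2 → m2 ≤ 1525 + k → m2 ≤ m1 + 1300 →
    Cn T x0 m1 ≤ 1.003 * (Cn T x0 m2 * x0 ^ (m2 - m1)))

/-! ## the formula for W -/

/-- C12: classes, E and R are small -/
def EbndStmt : Prop := ∀ (T x0 z : ℝ) (th : ℂ), Ctx T x0 z th → ∀ k, HH T x0 z th k →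
  (∀ m, 324 ≤ m → m < 1525 + k → (∀ d, 1 ≤ d → d ≤ 55 → 0 ≤ Nd T m d ∧
      Nd T m d ≤ 4.05 * x0 ^ (d + 10) * Cn T x0 m) ∧
    0 ≤ (gr T m).E ∧ (gr T m).E ≤ 0.9643 * Ebar x0 * Cn T x0 m) ∧
  (∀ m, 325 ≤ m → m < 1525 + k → |(gr T m).R| ≤ 38 * Ebar x0 * Cn T x0 m)

/-- C13 -/
def StateBStmt : Prop := ∀ (T x0 z : ℝ) (th : ℂ), Ctx T x0 z th → ∀ k, HH T x0 z th k →
  |bval T (brest T x0 z th 1200) (325 + k)| ≤ 4.5 / 10 ^ 4 * Ck T x0 k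

/-- the influence of the pauses of the indices i < k -/
noncomputable def past (T x0 z : ℝ) (th : ℂ) (k : ℕ) : ℝ :=
  ∑ i ∈ (Finset.range k).filter (fun i => k ≤ i + 1200),
    ∑ d ∈ Finset.Icc (1 : ℕ) 55, pd T (1525 + i) d * Gd T x0 z th d (k - 1 - i)

/-- C14 -/
def WrepStmt : Prop := ∀ (T x0 z : ℝ) (th : ℂ), Ctx T x0 z th → ∀ k, HH T x0 z th k →
  xin T x0 th (1525 + k) ≠ 0 →
  |Wn T (1525 + k) - Ck T x0 k * (1 - Am T x0 th k * Real.cos (omg th * pp T x0 th k)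
    + ztn T x0 z (1525 + k)) - past T x0 z th k| ≤ 4.5 / 10 ^ 4 * Ck T x0 k

/-- C15: lower bound -/
def EOneStmt : Prop := ∀ (T x0 z : ℝ) (th : ℂ), Ctx T x0 z th → ∀ k, HH T x0 z th k →
  Pre T x0 z th k → ∀ t, t ≤ k → cell T x0 th k + 8 * t < 88 →
  Ck T x0 (k - t) * (1 - Am T x0 th (k - t) * Real.cos (omg th * pp T x0 th (k - t))
    - (Yt (cell T x0 th k + 8 * t) : ℝ) / 10 ^ 10 - 5 / 10 ^ 4) ≤ Wn T (1525 + (k - t))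

/-- C16 -/
def EWStmt : Prop := ∀ (T x0 z : ℝ) (th : ℂ), Ctx T x0 z th → ∀ k, HH T x0 z th k →
  Pre T x0 z th k → ∀ t, t ≤ k → cell T x0 th k + 8 * t < 88 →
  Ck T x0 (k - t) * ((Wt (cell T x0 th k + 8 * t) : ℝ) / 10 ^ 10) ≤ Wn T (1525 + (k - t))

/-- C17: upper bound -/
def WupStmt : Prop := ∀ (T x0 z : ℝ) (th : ℂ), Ctx T x0 z th → ∀ k, HH T x0 z th k →
  Pre T x0 z th k → Wn T (1525 + k) ≤ 4 * Cn T x0 (1525 + k)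

/-- C18: no pauses at first -/
def QuietStmt : Prop := ∀ (T x0 z : ℝ) (th : ℂ), Ctx T x0 z th → ∀ k, k ≤ 6475 →
  (∀ i, i ≤ k → 0 ≤ ztn T x0 z (1525 + i) ∧ ztn T x0 z (1525 + i) < 3 / 10 ^ 4) →
  ∀ i, i ≤ k → PP T x0 z th i ∧ kap T (1525 + i) = 0 ∧ Dn T (1525 + i) = 0 ∧
    0 < Wn T (1525 + i)

/-- C19: no pause now if none before and W positive -/
def NopStmt : Prop := ∀ (T : ℝ) (n : ℕ), 1 ≤ n → (∀ m, m < n → Valid T m) → kap T (n - 1) = 0 →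
  0 < Wn T n → Valid T n ∧ kap T n = 0 ∧ Dn T n = 0 ∧ (gr T n).Q 0 < (gr T n).B

/-- C20: the step k -/
def CloseStmt : Prop := ∀ (T x0 z : ℝ) (th : ℂ), Ctx T x0 z th → ∀ k, 2000 ≤ k →
  HH T x0 z th k → Pre T x0 z th k → Valid T (1525 + k) ∧
  Dn T (1525 + k) ≤ Cn T x0 (1525 + k) * ((Dt (cell T x0 th k) : ℝ) / 10 ^ 6) ∧
  kap T (1525 + k) ≤ dmt (cell T x0 th k)

/-! ## amplitudes -/

/-- C21 -/
def AmStmt : Prop := ∀ (T x0 z : ℝ) (th : ℂ), Ctx T x0 z th → ∀ k, HH T x0 z th k →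
  ∀ j : ℕ, (j : ℤ) ≤ cyc T x0 th k → ∀ i, ref T x0 th j ≤ i → i ≤ k →
  (∀ m, ref T x0 th j ≤ m → m < i → cyc T x0 th m = j) →
  Am T x0 th i ≤ Am T x0 th (ref T x0 th j) + 5.14 / 10 ^ 4
    - ∑ m ∈ Finset.Ico (ref T x0 th j) i, kk T x0 th m ∧
  Am T x0 th (ref T x0 th j) - ∑ m ∈ Finset.Ico (ref T x0 th j) i, zz T x0 m ≤ Am T x0 th i ∧
  ∑ m ∈ Finset.Ico (ref T x0 th j) i, zz T x0 m ≤ 5.9 / 10 ^ 3

/-- C22: upper bound for W in a cycle with large amplitude -/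
def LowsStmt : Prop := ∀ (T x0 z : ℝ) (th : ℂ), Ctx T x0 z th → ∀ k, HH T x0 z th k →
  ∀ j : ℕ, 1 ≤ j → (j : ℤ) + 1 ≤ cyc T x0 th k → 1.056 ≤ Am T x0 th (ref T x0 th j) →
  ∀ s, s < 16 → Wn T (1525 + (ref T x0 th j + s)) ≤ Ck T x0 (ref T x0 th j + s) *
    ((W0N (cell T x0 th (ref T x0 th j)).toNat s : ℝ) / 10 ^ 10 + 7.5 / 10 ^ 4
      + ∑ m ∈ Finset.Ico (ref T x0 th j) (ref T x0 th j + s), zz T x0 m)
    + past T x0 z th (ref T x0 th j + s)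

/-- C23: the selected sums -/
def LoselStmt : Prop := ∀ (T x0 z : ℝ) (th : ℂ), Ctx T x0 z th → ∀ k, HH T x0 z th k →
  ∀ j : ℕ, 1 ≤ j → (j : ℤ) + 1 ≤ cyc T x0 th k →
  ∀ e ∈ selL (cell T x0 th (ref T x0 th j)).toNat,
  (e.2.2.2 : ℝ) / 10 ^ 14 * (∑ i ∈ Finset.Ico e.2.1 (e.2.1 + e.2.2.1),
    (- ∑ t ∈ Finset.range (i + 1), Wn T (1525 + (ref T x0 th j + e.1 - t))
      + (Dn T (1525 + (ref T x0 th j + e.1)) - Dn T (1525 + (ref T x0 th j + e.1 - 1 - i))) / 56))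
    ≤ Ck T x0 (ref T x0 th j + e.1) * kk T x0 th (ref T x0 th j + e.1)

/-- C24 -/
def LoStmt : Prop := ∀ (T x0 z : ℝ) (th : ℂ), Ctx T x0 z th → ∀ k, HH T x0 z th k →
  ∀ j : ℕ, 1 ≤ j → (j : ℤ) + 1 ≤ cyc T x0 th k → 1.056 ≤ Am T x0 th (ref T x0 th j) →
  12276 / 10 ^ 7 ≤ 1.23 * KK T x0 th j
    + ∑ q ∈ Finset.Icc (1 : ℕ) 25, if q ≤ j then (chiL.getD q 0 : ℝ) / 10 ^ 4 * KK T x0 th (j - q) else 0

/-- C25: abstract lemma -/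
def LyapStmt : Prop := ∀ (J : ℕ) (a K : ℕ → ℝ), (∀ j, j < J → 0 ≤ K j) →
  (∀ j, j < J → a (j + 1) ≤ a j + 5.14 / 10 ^ 4 - K j) → a 0 < 1.056 →
  (∀ j, j < J → a j ≤ 1.0573) →
  (∀ j, 1 ≤ j → j < J → 1.056 ≤ a j → 12276 / 10 ^ 7 ≤ 1.23 * K j
    + ∑ q ∈ Finset.Icc (1 : ℕ) 25, if q ≤ j then (chiL.getD q 0 : ℝ) / 10 ^ 4 * K (j - q) else 0) →
  a J ≤ 1.0567

/-- C26 -/
def AhiStmt : Prop := ∀ (T x0 z : ℝ) (th : ℂ), Ctx T x0 z th → ∀ k, HH T x0 z th k →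
  Am T x0 th k ≤ 1.0573

/-- C27 -/
def AloStmt : Prop := ∀ (T x0 z : ℝ) (th : ℂ), Ctx T x0 z th → ∀ k, HH T x0 z th k →
  0.9 ≤ Am T x0 th k

/-- C28 -/
def MainStmt : Prop := ∀ (T x0 z : ℝ) (th : ℂ), Ctx T x0 z th → ∀ k,
  (∀ i, i ≤ k → 0 ≤ ztn T x0 z (1525 + i) ∧ ztn T x0 z (1525 + i) < 3 / 10 ^ 4) →
  ∀ i, i ≤ k → PP T x0 z th i

/-! ## choice of T -/

/-- C29 -/
def ContStmt : Prop := ∀ x0f zf : ℝ → ℝ, ContinuousOn x0f (Set.Icc Tlo Thi) →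
  ContinuousOn zf (Set.Icc Tlo Thi) →
  (∀ T ∈ Set.Icc Tlo Thi, 1.03 ≤ x0f T ∧ zf T ≤ 0.98 ∧ 0.9 ≤ zf T) → ∀ n,
  ContinuousOn (fun T => Cn T (x0f T) n) (Set.Icc Tlo Thi) ∧
  ContinuousOn (fun T => zn T (zf T) n) (Set.Icc Tlo Thi)

/-- C30 -/
def TstarStmt : Prop := ∃ (T x0 z : ℝ) (th : ℂ), Ctx T x0 z th ∧ ∀ k, PP T x0 z th k

/-! ## consequences -/

/-- C31 -/
def InfKStmt : Prop := ∀ (T x0 z : ℝ) (th : ℂ), Ctx T x0 z th → (∀ k, PP T x0 z th k) →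
  ∀ n, ∃ n', n ≤ n' ∧ 0 < kap T n'

/-- C32 -/
def LimStmt : Prop := ∀ (T x0 z : ℝ) (th : ℂ), Ctx T x0 z th → (∀ k, PP T x0 z th k) →
  Tendsto (fun n => (gr T n).R) atTop (𝓝 0) ∧ ∀ n, (gr T n).B ≤ 1

/-- C33 -/
def StartStmt : Prop := ∀ (T x0 z : ℝ) (th : ℂ), Ctx T x0 z th → (∀ k, PP T x0 z th k) →
  ∀ n, ∃ n', n ≤ n' ∧ (gr T n').Q 0 < (gr T n').B

/-- C34 -/
def StructFinStmt : Prop := ∀ (T x0 z : ℝ) (th : ℂ), Ctx T x0 z th → (∀ k, PP T x0 z th k) →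
  Struct T

end SA
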