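import Pool.Agent.Helper88_SA.StmtA

/-! SA module WFORM. -/

namespace SA.H88

open Filter Topology

theorem tlo_pos : 0 < Tlo := by
  unfold Tlo Tm
  positivity

/-- the initial functional -/
theorem bval_rest0 (T x0 z : ℝ) (th : ℂ) (n : ℕ) :
    bval T (brest0 T x0 z th) n + Cn T x0 n + (Zn T th n).re + zn T z n
      = ((gr T n).E - ∑ d ∈ Finset.Icc (1 : ℕ) 55, (56 - (d : ℝ)) * Nd T n d) / 56 := by
  have hre : (PhiC T th n * a2c).re
      = ∑ d ∈ Finset.Icc (1 : ℕ) 55, Nd T n d * (a2c * gam (T : ℂ) th (56 - d)).re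
        - (gr T n).R * (a2c * (1 / (th - 1) + 1 / (th - 1) ^ 2)).re
        - (gr T n).E * (a2c * T / (th - 1)).re := by
    have h1 : PhiC T th n * a2c
        = ∑ d ∈ Finset.Icc (1 : ℕ) 55, ((Nd T n d : ℝ) : ℂ) * (a2c * gam (T : ℂ) th (56 - d))
          - (((gr T n).R : ℝ) : ℂ) * (a2c * (1 / (th - 1) + 1 / (th - 1) ^ 2))
          - (((gr T n).E : ℝ) : ℂ) * (a2c * T / (th - 1)) := by
      unfold PhiC
      rw [sub_mul, sub_mul, Finset.sum_mul]
      have h2 : ∀ d, (Nd T n d : ℂ) * gam (T : ℂ) th (56 - d) * a2c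
          = (Nd T n d : ℂ) * (a2c * gam (T : ℂ) th (56 - d)) := fun d => by ring
      simp only [h2]
      push_cast
      ring
    rw [h1, Complex.sub_re, Complex.sub_re, Complex.re_sum, Complex.re_ofReal_mul,
      Complex.re_ofReal_mul]
    simp only [Complex.re_ofReal_mul]
  have hZ : (Zn T th n).re = (PhiC T th n * a2c).re := by
    unfold Zn
    rw [mul_comm]
  rw [hZ, hre]
  have hC : Cn T x0 n = ∑ d ∈ Finset.Icc (1 : ℕ) 55, Nd T n d * (a0c * gam T x0 (56 - d))
      - (gr T n).R * (a0c * (1 / (x0 - 1) + 1 / (x0 - 1) ^ 2))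
      - (gr T n).E * (a0c * T / (x0 - 1)) := by
    unfold Cn PhiR
    rw [mul_sub, mul_sub, Finset.mul_sum]
    have h2 : ∀ d, a0c * (Nd T n d * gam T x0 (56 - d)) = Nd T n d * (a0c * gam T x0 (56 - d)) :=
      fun d => by ring
    simp only [h2]
    ring
  have hz : zn T z n = ∑ d ∈ Finset.Icc (1 : ℕ) 55, Nd T n d * (azc * gam T z (56 - d))
      - (gr T n).R * (azc * (1 / (z - 1) + 1 / (z - 1) ^ 2))
      - (gr T n).E * (azc * T / (z - 1)) := by
    unfold zn PhiR
    rw [mul_sub, mul_sub, Finset.mul_sum]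
    have h2 : ∀ d, azc * (Nd T n d * gam T z (56 - d)) = Nd T n d * (azc * gam T z (56 - d)) :=
      fun d => by ring
    simp only [h2]
    ring
  have hb : bval T (brest0 T x0 z th) n
      = ∑ d ∈ Finset.Icc (1 : ℕ) 55, (- ((56 - (d : ℝ)) / 56) - a0c * gam T x0 (56 - d)
          - azc * gam T z (56 - d) - (a2c * gam (T : ℂ) th (56 - d)).re) * Nd T n d
        + (a0c * (1 / (x0 - 1) + 1 / (x0 - 1) ^ 2) + azc * (1 / (z - 1) + 1 / (z - 1) ^ 2)
          + (a2c * (1 / (th - 1) + 1 / (th - 1) ^ 2)).re) * (gr T n).R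
        + (1 / 56 + a0c * T / (x0 - 1) + azc * T / (z - 1) + (a2c * T / (th - 1)).re)
          * (gr T n).E := by
    unfold bval
    congr 2
    refine Finset.sum_congr rfl fun d hd => ?_
    rw [Finset.mem_Icc] at hd
    have h2 : 56 - d ≠ 0 := by omega
    have h3 : ((56 - d : ℕ) : ℝ) = 56 - (d : ℝ) := by
      rw [Nat.cast_sub (by omega)]
      norm_num
    change (if 56 - d = 0 then (0 : ℝ) else - ((56 - d : ℕ) : ℝ) / 56 - a0c * gam T x0 (56 - d)
      - azc * gam T z (56 - d) - (a2c * gam (T : ℂ) th (56 - d)).re) * Nd T n d = _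
    rw [if_neg h2, h3]
    ring
  have hsum : ∑ d ∈ Finset.Icc (1 : ℕ) 55, (- ((56 - (d : ℝ)) / 56) - a0c * gam T x0 (56 - d)
          - azc * gam T z (56 - d) - (a2c * gam (T : ℂ) th (56 - d)).re) * Nd T n d
      = - (∑ d ∈ Finset.Icc (1 : ℕ) 55, (56 - (d : ℝ)) * Nd T n d) / 56
        - ∑ d ∈ Finset.Icc (1 : ℕ) 55, Nd T n d * (a0c * gam T x0 (56 - d))
        - ∑ d ∈ Finset.Icc (1 : ℕ) 55, Nd T n d * (azc * gam T z (56 - d))
        - ∑ d ∈ Finset.Icc (1 : ℕ) 55, Nd T n d * (a2c * gam (T : ℂ) th (56 - d)).re := by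
    rw [neg_div, Finset.sum_div, ← Finset.sum_neg_distrib, ← Finset.sum_sub_distrib,
      ← Finset.sum_sub_distrib, ← Finset.sum_sub_distrib]
    refine Finset.sum_congr rfl fun d _ => ?_
    ring
  rw [hb, hC, hz, hsum]
  ring

/-- iteration of the rest functional -/
theorem bval_iter (hR : RestStepStmt) (T x0 z : ℝ) (th : ℂ) (hT : T ≠ 0) (n : ℕ)
    (hV : ∀ m, m < n → Valid T m) : ∀ L, L ≤ n → bval T (brest T x0 z th 0) n
      = bval T (brest T x0 z th L) (n - L) + ∑ l ∈ Finset.range L, ∑ d ∈ Finset.Icc (1 : ℕ) 55,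
        pd T (n - 1 - l) d * ((brest T x0 z th l).r (56 - d)
          - (brest T x0 z th (l + 1)).r (56 - d)) := by
  intro L
  induction L with
  | zero => intro _; simp
  | succ L ih =>
    intro hL
    rw [ih (by omega), Finset.sum_range_succ]
    have h1 := hR T (brest T x0 z th L) (n - 1 - L) hT (fun m hm => hV m (by omega))
    have h2 : n - 1 - L + 1 = n - L := by omega
    have h3 : n - 1 - L = n - (L + 1) := by omega
    have h4 : badj T (brest T x0 z th L) = brest T x0 z th (L + 1) := by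
      unfold brest
      rw [Function.iterate_succ_apply']
    rw [h2, h4] at h1
    rw [h1, ← h3]
    ring

/-- WFORM -/
theorem wform (hR : RestStepStmt) (hW : WlinStmt) : WformStmt := by
  intro T x0 z th n hT1 _ _ hn hV
  have hT : T ≠ 0 := (lt_of_lt_of_le tlo_pos hT1).ne'
  have h1 := hW T (n - 1) hT (fun m hm => hV m (by omega))
  have hn1 : n - 1 + 1 = n := by omega
  rw [hn1] at h1
  have h2 := bval_rest0 T x0 z th n
  have h3 := bval_iter hR T x0 z th hT n hV 1200 (by omega)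
  have h4 : brest T x0 z th 0 = brest0 T x0 z th := rfl
  rw [h4] at h3
  have h5 : ∑ l ∈ Finset.range 1200, ∑ d ∈ Finset.Icc (1 : ℕ) 55, pd T (n - 1 - l) d
        * Gd T x0 z th d l
      = ∑ l ∈ Finset.range 1200, ∑ d ∈ Finset.Icc (1 : ℕ) 55,
        pd T (n - 1 - l) d * ((brest T x0 z th l).r (56 - d)
          - (brest T x0 z th (l + 1)).r (56 - d))
        + (∑ d ∈ Finset.Icc (1 : ℕ) 55, (56 - (d : ℝ)) * pd T (n - 1) d) / 56 := by
    have h6 : ∀ l, ∑ d ∈ Finset.Icc (1 : ℕ) 55, pd T (n - 1 - l) d * Gd T x0 z th d l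
        = ∑ d ∈ Finset.Icc (1 : ℕ) 55,
          pd T (n - 1 - l) d * ((brest T x0 z th l).r (56 - d)
            - (brest T x0 z th (l + 1)).r (56 - d))
          + if l = 0 then (∑ d ∈ Finset.Icc (1 : ℕ) 55, (56 - (d : ℝ)) * pd T (n - 1) d) / 56
            else 0 := by
      intro l
      by_cases hl : l = 0
      · subst hl
        rw [if_pos rfl, Finset.sum_div, ← Finset.sum_add_distrib]
        refine Finset.sum_congr rfl fun d _ => ?_
        unfold Gd
        rw [if_pos rfl, Nat.sub_zero]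
        ring
      · rw [if_neg hl, add_zero]
        refine Finset.sum_congr rfl fun d _ => ?_
        unfold Gd
        rw [if_neg hl, add_zero]
    have h7 : ∀ X : ℝ, ∑ l ∈ Finset.range 1200, (if l = 0 then X else 0) = X := by
      intro X
      rw [Finset.sum_eq_single 0]
      · rw [if_pos rfl]
      · intro b _ hb
        rw [if_neg hb]
      · intro h
        exact absurd (Finset.mem_range.2 (by norm_num)) h
    rw [Finset.sum_congr rfl (fun l _ => h6 l), Finset.sum_add_distrib, h7]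
  rw [h5]
  linarith

end SA.H88
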