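import Pool.Agent.Helper48_SA.Sort
import Pool.Agent.Helper48_SA.Small
import Pool.Agent.Helper7_SA.Mod
import Pool.Agent.Helper21_SA.Nbnd
import Pool.Agent.Helper75_SA.Top
import Pool.Agent.Helper75_SA.TopSet
import Pool.Agent.Helper53_SA.Rstep
import Pool.Agent.Helper88_SA.StmtP
import Pool.Agent.Helper88_SA.Wform

/-! Assembly of part A. -/

namespace SA

theorem algA : AlgA := by
  have hs : SortStmt := H48.sort
  have hb : BarStmt := H48.bar hs
  have ht : TopStmt := H75.top hs
  have hc : CstepStmt := H48.cstep hs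
  have hp : PdStmt := H75.pdProof hs
  have hr : ModRStmt := H7.modR hs hb hc hp
  have hm : ModCStmt := H7.modC hs hb hc hp
  have hq : QzeroStmt := H75.qzero hs
  exact ⟨hs, hb, H48.barge, ht, H75.topSet hs hb ht, hq, hc, hp, hr, hm,
    H88.wform (H53.rstep hs hb hc hp) (H53.wlin hs hb hc hp), H21.nbnd hs ht hq,
    H75.wpos hs hb ht, H48.ebd hs hb⟩

end SA
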