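import Pool.Agent.Helper18_SA.Bnd
import Pool.Agent.Helper10_SA.Contr
import Pool.Agent.Helper42_SA.Dfin
import Pool.Agent.Helper54_SA.Dsol
import Pool.Agent.Helper10_SA.InitW
import Pool.Agent.Helper42_SA.Path
import Pool.Agent.Helper21_SA.Range
import Pool.Agent.Helper54_SA.Rup
import Pool.Agent.Helper84_SA.TailW
import Pool.Agent.Helper21_SA.Zenc
import Pool.Agent.Helper84_SA.Rlo

/-! Assembly of part DUAL. -/

namespace SA

theorem dualStmt : DualStmt := by
  have hrlo : RangeLoStmt := H84.rlo H42.path H42.low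
  have hr : RangeStmt := H21.range (H54.rup H42.path H42.low) hrlo
  exact H42.dualFin H54.dsol H21.zenc hr (H84.tailw H42.low hr hrlo) H10.contr H18.bnd H10.initW

end SA
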