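import Pool.Agent.Helper34_SA.Pot
import Pool.Agent.Helper10_SA.Dom
import Pool.Agent.Helper84_SA.FlowQ
import Pool.Agent.Helper34_SA.Gam
import Pool.Agent.Helper42_SA.Geo
import Pool.Agent.Helper42_SA.GeoTS
import Pool.Agent.Helper10_SA.GF
import Pool.Agent.Helper10_SA.GFin
import Pool.Agent.Helper10_SA.Kick
import Pool.Agent.Helper21_SA.Kpos
import Pool.Agent.Helper10_SA.LB
import Pool.Agent.Helper99_SA.Pay
import Pool.Agent.Helper42_SA.Psi
import Pool.Agent.Helper34_SA.Ratio
import Pool.Agent.Helper10_SA.UB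
import Pool.Agent.Helper34_SA.Vp

/-! Assembly of part GAME. -/

namespace SA

theorem gameStmt : GameStmt := by
  have hpsi : PsiStmt := H42.psi H34.pot H34.abel H34.vp
  have hgf : GreedyFlowStmt := H10.gf
  have hflow : FlowQStmt := H84.flowq H99.pay
  have hgeo := H42.geoGen H34.pot
  have hdom : DomStmt := H10.dom H34.pot H34.poteq H34.abel hgf
  have hub : UbStmt := H10.ub H34.pot H34.abel H34.vp hgf
  have hlb : LbStmt := H10.lb hflow hdom (H42.geoSlack hgeo) hgf H34.gamPos H34.zex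
  exact H10.gfin hpsi hgf hub hlb (H34.ratio hpsi hflow hgf) (H10.kickOm hgf)
    (H21.kpos hgf H34.gamPos) H34.gamPos H34.gamGain (H42.geoTest hgeo)

end SA
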