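import Pool.Agent.Helper88_SA.AsmA
import Pool.Agent.Helper18_SA.Sep
import Pool.Agent.Helper84_SA.Alo
import Pool.Agent.Helper99_SA.Am
import Pool.Agent.Helper20_SA.Back
import Pool.Agent.Helper33_SA.Close
import Pool.Agent.Helper28_SA.Cont
import Pool.Agent.Helper65_SA.Drift
import Pool.Agent.Helper21_SA.Ebnd
import Pool.Agent.Helper84_SA.Ew
import Pool.Agent.Helper53_SA.Main
import Pool.Agent.Helper50_SA.Lim
import Pool.Agent.Helper42_SA.Losel
import Pool.Agent.Helper20_SA.Lows
import Pool.Agent.Helper48_SA.Mstep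
import Pool.Agent.Helper28_SA.Nop
import Pool.Agent.Helper42_SA.ProdC
import Pool.Agent.Helper75_SA.Quiet
import Pool.Agent.Helper21_SA.Ref
import Pool.Agent.Helper65_SA.StateB
import Pool.Agent.Helper75_SA.StepA
import Pool.Agent.Helper50_SA.StepC
import Pool.Agent.Helper28_SA.Tstar
import Pool.Agent.Helper65_SA.Win
import Pool.Agent.Helper47_SA.Wrep
import Pool.Agent.Helper47_SA.Wup
import Pool.Agent.Helper18_SA.Cs
import Pool.Agent.Helper59_SA.Inte
import Pool.Agent.Helper5_SA.IntKap
import Pool.Agent.Helper48_SA.IntPass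
import Pool.Agent.Helper5_SA.IntW
import Pool.Agent.Helper21_SA.Nroot
import Pool.Agent.Helper48_SA.NumCell
import Pool.Agent.Helper18_SA.Numcos
import Pool.Agent.Helper58_SA.NumKick
import Pool.Agent.Helper58_SA.NumRoot
import Pool.Agent.Helper33_SA.Lo
import Pool.Agent.Helper53_SA.Lyap
import Pool.Agent.Helper7_SA.Lo
import Pool.Agent.Helper7_SA.LoP
import Pool.Agent.Helper13_SA.SimA
import Pool.Agent.Helper38_SA.TabF
import Pool.Agent.Helper38_SA.Hor
import Pool.Agent.Helper58_SA.SignD
import Pool.Agent.Helper50_SA.Phrep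
import Pool.Agent.Helper63_SA.Eone

/-! Assembly of part P, up to the last numerical modules. -/

namespace SA

theorem ctxStmt (hsim : SimStmt) : CtxStmt := by
  intro T x0 z th h1 h2 hr
  have hnr := H58.numroot T x0 z th h1 h2 hr
  have hnk := H58.numkick T x0 z th h1 h2 hr
  exact ⟨h1, h2, hr, hnr, hnk, H18.numcos H18.cs _ hnr.omg_enc,
    H48.numCell H18.cs T x0 z th hnr hnk, hsim T x0 z th h1 h2 hr⟩

theorem asmP (hsim : SimStmt) : StructStmt := by
  have hcyc : CycbStmt := H50.cycb
  have hphr : PhrepStmt := H50.phrep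
  have a : AlgA := algA
  have b : NumA := ⟨H59.inte1, H59.inte2, H5.intW, H48.intPass, H5.intKap, H7.intLo, H7.intLoP, H48.intQ,
    H38.tab, H38.hor⟩
  have hsign : SignStmt := H58.sign a.sort a.bar H13.simA a.pds a.modr
  have hms : MstepStmt := H48.mstep a
  have hsc : StepCStmt := H50.stepc a hms
  have hsa : StepAStmt := H75.stepA a b hms hphr hcyc
  have hwin : WinStmt := H65.win hsa hcyc b.pass
  have hdr : DriftStmt := H65.drift hwin hcyc
  have hback : BackStmt := H20.back hwin hdr hcyc hsa
  have href : RefStmt := H21.refm hwin hdr hcyc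
  have hsep : SepStmt := H18.sep hdr hcyc b
  have hprod : ProdStmt := H42C.prod a b.pass hms hsc hdr
  have hebnd : EbndStmt := H21.ebnd a hsep hprod
  have hsb : StateBStmt := H65.stateB hebnd hprod b.hor
  have hwrep : WrepStmt := H47.wrep a hsb hphr
  have hE : EOneStmt := H63.eone a b hwrep hdr hback hprod hcyc
  have hEW : EWStmt := H84.ew hE hback hcyc
  have hwup : WupStmt := H47.wup a b hwrep hprod
  have hnop : NopStmt := H28.nop a
  have hquiet : QuietStmt := H75.quiet a hsc hwrep hnop
  have hclose : CloseStmt := H33.close a b hEW hprod hback hdr hcyc hnop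
  have ham : AmStmt := H99.am hsa href hwin
  have hlows : LowsStmt := H20.lows hwrep ham href hdr hcyc hsa
  have hlosel : LoselStmt := H42C.losel a b href hdr
  have hlo' : LoStmt := H33.lo a b hlows hlosel hprod href hdr hcyc
  have hahi : AhiStmt := H18.ahi ham hlo' H53.lyap href hsa hdr
  have halo : AloStmt := H84.alo a b hE hcyc hdr href ham hnop
  have hmain : MainStmt := H53.main b hquiet hahi halo hsc hclose hwup
  have hts : TstarStmt := H28.tstar b.pass (ctxStmt hsim) H21.nroot hsign hmain hquiet hsc H28.cont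
  have hfin : StructFinStmt := H18.structfin hsep hquiet (H53.infk hsc)
    (H50.lim a hebnd hprod href hdr) (H28.start b hEW hnop href hback hcyc)
  obtain ⟨T, x0, z, th, hc, hk⟩ := hts
  exact ⟨T, hc.Tl, hc.Tu, hfin T x0 z th hc hk⟩

end SA
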