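import Mathlib

/-! Silent search-ambush game, K = 56: no equilibrium has an eventually geometric hider strategy.
Definitions used by all modules.  Time is 0-based inside: state n is the state before period n+1. -/

namespace SA

open Filter Topology

/-! ## The game, as in the problem file -/

/-- number of searches of s strictly before period i -/
def cnt (s : Finset ℕ) (i : ℕ) : ℕ := (s.filter (fun j => j < i)).card

/-- the payoff P_T(s, h^i); a pure searcher strategy is the finite set s of its search periods -/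
noncomputable def payoff (K : ℕ) (T : ℝ) (s : Finset ℕ) (i : ℕ) : ℝ :=
  (1 / (K : ℝ)) * ∑ j ∈ s.filter (fun j => j < i), (j : ℝ)
    + (1 - (cnt s i : ℝ) / K) * ((i : ℝ) + if i ∈ s then T else 0)

/-- exactly K search periods, all at least 1 -/
def IsStrategy (K : ℕ) (s : Finset ℕ) : Prop := s.card = K ∧ ∀ j ∈ s, 1 ≤ j

structure IsEquilibrium (K : ℕ) (T : ℝ) (p : ℕ → ℝ) (q : Finset ℕ → ℝ) : Prop where
  T_pos : 0 < T
  p_nonneg : ∀ i, 0 ≤ p i
  p_zero : p 0 = 0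
  p_sum : HasSum p 1
  q_nonneg : ∀ s, 0 ≤ q s
  q_supp : ∀ s, q s ≠ 0 → IsStrategy K s
  q_sum : HasSum q 1
  hider : ∀ i, 1 ≤ i → ∑' s, q s * payoff K T s i ≤ T
  searcher : ∀ s, IsStrategy K s → T ≤ ∑' i, p i * payoff K T s i

/-- property (a) -/
def EventuallyGeometric (p : ℕ → ℝ) : Prop :=
  ∃ x : ℕ, ∃ z : ℝ, 1 ≤ x ∧ ∀ j, x < j → 0 < p (j - 1) ∧ p j / p (j - 1) = z

/-! ## Flows (masses of searcher strategies by number of remaining searches) -/

/-- mu n r : mass with r searches still to be done before period n+1;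
sg n r : the part of it that searches in period n+1. -/
structure IsFlow (mu sg : ℕ → ℕ → ℝ) : Prop where
  init : ∀ r, mu 0 r = if r = 56 then 1 else 0
  sg_nonneg : ∀ n r, 0 ≤ sg n r
  sg_le : ∀ n r, sg n r ≤ mu n r
  sg_zero : ∀ n, sg n 0 = 0
  step : ∀ n r, mu (n + 1) r = mu n r - sg n r + sg n (r + 1)
  top : ∀ n r, 56 < r → mu n r = 0

noncomputable def fR (mu : ℕ → ℕ → ℝ) (n : ℕ) : ℝ := ∑ r ∈ Finset.range 57, (r : ℝ) * mu n r
noncomputable def fE (sg : ℕ → ℕ → ℝ) (n : ℕ) : ℝ := ∑ r ∈ Finset.range 57, (r : ℝ) * sg n r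
/-- cumulative sum of fR over states 0..n -/
noncomputable def fC (mu : ℕ → ℕ → ℝ) (n : ℕ) : ℝ := ∑ j ∈ Finset.range (n + 1), fR mu j

/-- the hider strategies h^1, ..., h^N get at most T against the flow -/
def FeasibleTo (T : ℝ) (mu sg : ℕ → ℕ → ℝ) (N : ℕ) : Prop :=
  ∀ n, n < N → fC mu n + T * fE sg n ≤ 56 * T

/-! ## Characteristic sequences -/

/-- gamma_r(x) -/
def gam {F : Type*} [Field F] (T x : F) : ℕ → F
  | 0 => 0
  | r + 1 => x / (x - 1) ^ 2 - ((r : F) + 1) * T + x * gam T x r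

/-- the potential of a flow at state n, for a discount ratio z -/
noncomputable def Om (T z : ℝ) (mu : ℕ → ℕ → ℝ) (n : ℕ) : ℝ :=
  (56 * T - ∑ j ∈ Finset.range n, fR mu j) / (1 - z) - fR mu n / (1 - z) ^ 2
    + ∑ r ∈ Finset.range 56, mu n r * gam T z r

/-! ## The greedy flow, barrier form
Q 0 ≥ Q 1 ≥ ... ≥ Q 55 are the 56 largest of the past barriers (zeros at the start);
E is the prescribed value of the sum over searching mass of remaining searches. -/

structure St where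
  Q : ℕ → ℝ
  E : ℝ

noncomputable def St.R (s : St) : ℝ := 56 - ∑ j ∈ Finset.range 56, s.Q j

/-- the barrier: the solution B of sum_j (B - Q_j)^+ = E -/
noncomputable def St.B (s : St) : ℝ :=
  (Finset.range 56).inf' ⟨0, by simp⟩
    (fun k => (s.E + ∑ j ∈ Finset.Ico k 56, s.Q j) / (56 - (k : ℝ)))

/-- insertion of the barrier in the sorted list -/
noncomputable def St.ins (s : St) (j : ℕ) : ℝ :=
  if j = 0 then max (s.Q 0) s.B else if j < 56 then max (s.Q j) (min (s.Q (j - 1)) s.B) else 0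

noncomputable def St.next (T : ℝ) (s : St) : St where
  Q := s.ins
  E := s.E - (56 - ∑ j ∈ Finset.range 56, s.ins j) / T

/-- greedy state before period n+1 -/
noncomputable def gr (T : ℝ) : ℕ → St
  | 0 => { Q := fun _ => 0, E := 56 - 56 / T }
  | n + 1 => (gr T n).next T

/-- number of past barriers (among the 56 largest) above the current one -/
noncomputable def kap (T : ℝ) (n : ℕ) : ℕ :=
  ((Finset.range 56).filter (fun j => (gr T n).B < (gr T n).Q j)).card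

/-- greedy masses by remaining searches -/
noncomputable def gmu (T : ℝ) (n r : ℕ) : ℝ :=
  if r = 0 then (gr T n).Q 55
  else if r < 56 then (gr T n).Q (55 - r) - (gr T n).Q (56 - r)
  else if r = 56 then 1 - (gr T n).Q 0 else 0

noncomputable def gsg (T : ℝ) (n r : ℕ) : ℝ :=
  if r = 0 then 0
  else if r < 56 then min (gr T n).B ((gr T n).Q (55 - r)) - min (gr T n).B ((gr T n).Q (56 - r))
  else if r = 56 then max (gr T n).B ((gr T n).Q 0) - (gr T n).Q 0 else 0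

/-! ## Thresholds of the initial phase -/

/-- kap for n < 171 (0-based) -/
def kap0list : List ℕ :=
  [0,1,2,3,4,5,6,7,8,9,10,11,12,13,14,15,16,17,18,19,20,21,22,23,24,25,26,27,28,29,30,31,31,30,
   29,28,27,26,25,23,22,21,20,18,17,16,15,13,12,11,9,8,6,5,4,2,1,2,3,4,5,6,7,8,9,8,7,6,5,4,3,2,
   1,1,1,1,0,0,0,0,0,0,0,0,0,0,0,0,0,0,0,0,0,0,0,0,0,0,0,0,0,0,0,0,0,0,0,0,0,0,0,0,2,3,5,6,7,7,7,
   6,4,3,1,0,0,0,0,0,0,0,0,0,0,0,0,0,0,0,0,0,0,0,0,0,0,0,0,0,0,0,0,0,0,0,0,0,0,0,0,0,0,0,0,0,1,3,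
   4,5,5,4,2]
def kap0 (n : ℕ) : ℕ := kap0list.getD n 0

/-! ## Numbers -/

/-- the value T lies between m / 2^200 and (m+1) / 2^200 -/
def Tm : ℕ := 59384035798556610704259263795300376330825709047034690733615222
noncomputable def Tlo : ℝ := (Tm : ℝ) / 2 ^ 200
noncomputable def Thi : ℝ := ((Tm : ℝ) + 1) / 2 ^ 200

/-! ## What the analysis of the greedy flow gives -/

structure Struct (T : ℝ) : Prop where
  valid : ∀ n, (gr T n).Q 55 ≤ (gr T n).B
  le_one : ∀ n, (gr T n).B ≤ 1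
  R_tend : Tendsto (fun n => (gr T n).R) atTop (𝓝 0)
  kap_init : ∀ n, n < 171 → kap T n = kap0 n
  kap_quiet : ∀ n, 171 ≤ n → n ≤ 8000 → kap T n = 0
  kap_le : ∀ n, 171 ≤ n → kap T n ≤ 10
  kap_sep : ∀ n n', 171 ≤ n → n < n' → 0 < kap T n → 0 < kap T n' → n' ≤ n + 9 ∨ n + 39 ≤ n'
  kap_inf : ∀ n, ∃ n', n ≤ n' ∧ 0 < kap T n'
  start_inf : ∀ n, ∃ n', n ≤ n' ∧ (gr T n').Q 0 < (gr T n').B

/-! ## The dual recursion -/

/-- one backward step of the dual recursion, threshold k = 56 - kap -/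
noncomputable def dstep (T : ℝ) (k : ℕ) (v : ℝ × (ℕ → ℝ)) : ℝ × (ℕ → ℝ) :=
  (v.1 + v.2 k / k / T,
    fun r => if r = 0 then 0
      else if r ≤ k then v.1 + v.2 k / k / T + v.2 k / k + v.2 (r - 1)
      else v.1 + v.2 k / k / T + v.2 r)

/-- geometric boundary profile: (S, D) -/
noncomputable def bdry (T z : ℝ) : ℝ × (ℕ → ℝ) :=
  (1 / (1 - z), fun r => (1 - z ^ r) * (T / (1 - z) + 1 / (1 - z) ^ 2))

/-- dual profile at state N - m -/
noncomputable def dprof (T z : ℝ) (κ : ℕ → ℕ) (N : ℕ) : ℕ → ℝ × (ℕ → ℝ)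
  | 0 => bdry T z
  | m + 1 => dstep T (56 - κ (N - (m + 1))) (dprof T z κ N m)

/-- the monotonicity condition of the dual certificate -/
def Wcond (T z : ℝ) (κ : ℕ → ℕ) (N : ℕ) : Prop :=
  ∀ m, m < N → ∀ r, 1 ≤ r → r ≤ 56 →
    (r ≤ 56 - κ (N - (m + 1)) →
      (r : ℝ) * ((dprof T z κ N m).2 (56 - κ (N - (m + 1))) / ((56 - κ (N - (m + 1)) : ℕ) : ℝ))
        ≤ (dprof T z κ N m).2 r) ∧
    (56 - κ (N - (m + 1)) < r →
      (dprof T z κ N m).2 r ≤
        (r : ℝ) * ((dprof T z κ N m).2 (56 - κ (N - (m + 1))) / ((56 - κ (N - (m + 1)) : ℕ) : ℝ)))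

/-- hypotheses on the thresholds used by the dual part -/
structure KapOK (κ : ℕ → ℕ) : Prop where
  init : ∀ n, n < 171 → κ n = kap0 n
  quiet : ∀ n, 171 ≤ n → n ≤ 8000 → κ n = 0
  le : ∀ n, 171 ≤ n → κ n ≤ 10
  sep : ∀ n n', 171 ≤ n → n < n' → 0 < κ n → 0 < κ n' → n' ≤ n + 9 ∨ n + 39 ≤ n'

/-! ## Top-level statements -/

/-- part P: the greedy flow has the right structure for some T -/
def StructStmt : Prop := ∃ T, Tlo ≤ T ∧ T ≤ Thi ∧ Struct T

/-- part DUAL -/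
def DualStmt : Prop := ∀ (T z : ℝ) (κ : ℕ → ℕ), Tlo ≤ T → T ≤ Thi → 0 < z → z < 1 →
  gam T z 56 = 0 → KapOK κ → ∀ N, 8001 ≤ N → Wcond T z κ N

/-- part GAME -/
def GameStmt : Prop := StructStmt → DualStmt →
  ∀ (T : ℝ) (p : ℕ → ℝ) (q : Finset ℕ → ℝ), IsEquilibrium 56 T p q → ¬ EventuallyGeometric p

end SA
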