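import Pool.Agent.Helper88_SA.Tab

/-! Integer checks of part P.  All functions are computable; the modules of part N prove that they
return true (by kernel evaluation, possibly of faster equivalent functions). -/

namespace SA

def cdiv (a b : ℤ) : ℤ := -((-a) / b)

/-- bound of omega (1/16 + 0.035), scale 10^10 -/
def HWn : ℤ := 125391621

/-- enclosures of x0^t, scale 10^10 -/
def X0loL : List ℤ := [9999999999, 10380665628, 10775821891, 11186020394, 11611833744, 12053856344, 12512705226, 12989020908, 13483468291, 13996737586, 14529545279, 15082635130, 15656779211, 16252778983, 16871466418, 17513705157, 18180391718, 18872456745, 19590866309, 20336623255, 21110768606, 21914383009, 22748588250, 23614548818, 24513473528, 25446617213]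
def X0hiL : List ℤ := [10000000001, 10380665631, 10775821894, 11186020397, 11611833747, 12053856347, 12512705229, 12989020911, 13483468294, 13996737589, 14529545282, 15082635133, 15656779214, 16252778986, 16871466421, 17513705160, 18180391721, 18872456748, 19590866312, 20336623258, 21110768609, 21914383012, 22748588253, 23614548821, 24513473531, 25446617216]
def X0lo (t : ℕ) : ℤ := X0loL.getD t 0
def X0hi (t : ℕ) : ℤ := X0hiL.getD t 0

/-- upper bound of cos on the cell c widened by 0.035 steps, scale 10^10 -/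
def cosmaxN (c : ℤ) : ℤ := min (10 ^ 10) (Ct c + 2 + cdiv ((|St_ c| + 2) * HWn) (10 ^ 10))

/-- lower bound of W / C on the (widened) cell c, scale 10^10 -/
def Wt (c : ℤ) : ℤ :=
  if c < -64 then 45 * 10 ^ 8 - (Yt c : ℤ) - 5 * 10 ^ 6
  else 10 ^ 10 - cdiv (10573 * max 0 (cosmaxN c)) (10 ^ 4) - (Yt c : ℤ) - 5 * 10 ^ 6

/-- maximum of Dt over the cells that can be reached -/
def Mq (q : ℕ) (y : ℤ) : ℕ :=
  (List.range (qehi q - qelo q + 1).toNat).foldl (fun m e => max m (Dt (y + qelo q + e))) 0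

/-! ### E1: influence of past pauses -/

def lminq (q : ℕ) (c : ℤ) : ℕ := (cdiv (-47 - qehi q - c + qF q) 8 - 1).toNat

def e1term (q : ℕ) (c : ℤ) (l : ℕ) : ℕ :=
  if l < 1200 then kap_ l * Mq q (c + 8 * (l + 1) - qF q) else 0

def e1sum (c : ℤ) : ℕ :=
  (List.range 26).foldl (fun s q => s + (10 ^ 4 + q + 1) *
    (List.range 13).foldl (fun t i => t + e1term q c (lminq q c + i)) 0) 0

def e1ok (c : ℤ) : Bool := e1sum c ≤ Yt c * 10 ^ 10

/-! ### E2: the pauses on the cell c -/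

/-- partial sums a_i = - sum_{t <= i} W x0^t (upper bounds), scale 10^10 -/
def aN (c : ℤ) : ℕ → ℤ
  | 0 => if 0 ≤ Wt c then - (Wt c * X0lo 0 / 10 ^ 10)
      else cdiv ((-Wt c) * X0hi 0 * 10001) (10 ^ 14)
  | i + 1 => aN c i + (if 0 ≤ Wt (c + 8 * (i + 1)) then - (Wt (c + 8 * (i + 1)) * X0lo (i + 1) / 10 ^ 10)
      else cdiv ((-Wt (c + 8 * (i + 1))) * X0hi (i + 1) * 10001) (10 ^ 14))

/-- number of steps up to the phase 11 -/
def nI (c : ℤ) : ℕ := (cdiv (88 - c) 8).toNat

def e2ok (c : ℤ) : Bool :=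
  let I := nI c
  let L := (List.range I).map (aN c)
  decide (I ≤ 19) &&
  decide ((L.map (fun a => max 0 (56 * a + (Dt c : ℤ) * 10 ^ 4))).sum ≤ 56 * (Dt c : ℤ) * 10 ^ 4) &&
  decide ((L.filter (fun a => 0 < 56 * a + (Dt c : ℤ) * 10 ^ 4)).length ≤ dmt c) &&
  decide (56 * aN c (I - 1) + (Dt c : ℤ) * 10 ^ 4 ≤ 0) &&
  L.all (fun a => decide ((I - 1 : ℕ) * a ≤ - aN c (I - 1) * (57 - I)))

def wposok (c : ℤ) : Bool := decide (0 < Wt c)

/-! ### window sums -/

def max3 (F : ℤ → ℕ) (c : ℤ) : ℕ := max (F (c - 1)) (max (F c) (F (c + 1)))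

/-- sum along one passage, starting in the cell c0 -/
def pass (F : ℤ → ℕ) (c0 : ℤ) : ℕ := (List.range 11).foldl (fun s j => s + max3 F (c0 - 8 * j)) 0

/-! ### LO: lower bound for the pauses of one cycle -/

/-- selection: (offset n, first index i0, number k, weight u, scale 10^14) -/
def selL : ℕ → List (ℕ × ℕ × ℕ × ℕ)
  | 79 => [(8,0,1,42604134276),(9,0,3,40194760192),(10,0,4,41670793338),(11,1,4,46512644611),(12,1,6,43535637329),(13,3,5,50588777854),(14,5,3,58744212425)]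
  | 80 => [(8,0,1,41834904121),(9,0,3,39471943625),(10,0,4,41014344861),(11,1,4,45948722941),(12,1,5,46586492992),(13,2,5,50195845200),(14,4,4,55847673637)]
  | 81 => [(8,0,1,41054604872),(9,0,3,38738684845),(10,0,4,40347063409),(11,1,4,45372693111),(12,1,5,46078836829),(13,2,5,49789714489),(14,4,4,55595697099)]
  | 82 => [(8,0,1,40263438193),(9,0,2,42138595141),(10,0,4,39669121424),(11,0,5,40980658025),(12,1,5,45559046555),(13,2,5,49370490679),(14,4,4,55329119362)]
  | 83 => [(8,0,1,39461608526),(9,0,2,41403195443),(10,0,4,38980694109),(11,0,5,40358070032),(12,1,5,45027256504),(13,2,5,48938282114),(14,3,5,52026548746),(15,6,2,61540735563)]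
  | 84 => [(9,0,2,40656846411),(10,0,3,42298702392),(11,0,5,39724826332),(12,1,5,44483604105),(13,2,5,48493200480),(14,3,5,51687389259),(15,6,2,61476556112)]
  | 85 => [(9,0,2,39899740935),(10,0,3,41608322225),(11,0,5,39081090575),(12,1,5,43928229852),(13,2,5,48035360806),(14,3,5,51334646257),(15,5,3,59068825020)]
  | 86 => [(9,0,2,39132074665),(10,0,3,40906947737),(11,0,4,42316239201),(12,1,5,43361277269),(13,2,5,47564881400),(14,3,5,50968410909),(15,5,3,58914252047)]
  | 87 => [(9,0,1,42604134276),(10,0,3,40194760192),(11,0,4,41670793338),(12,1,4,46512644611),(13,1,6,43535637329),(14,3,5,50588777854),(15,5,3,58744212425)]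
  | _ => []

/-- A_1 = 1.056; lower bound of cos on the widened cell, scale 10^10 -/
def cminN (c : ℤ) : ℤ :=
  Ct c - 2 - cdiv ((|St_ c| + 2) * HWn) (10 ^ 10) - cdiv (HWn * HWn) (2 * 10 ^ 10)

/-- upper bound of 1 - 1.056 cos at offset s, scale 10^10 -/
def W0N (cb : ℕ) (s : ℕ) : ℤ := 10 ^ 10 - (10560 * cminN ((cb : ℤ) - 8 * s)) / 10 ^ 4

/-- bounds |theta z_d|, scale 10^14 -/
def zmL : List ℤ := [0, 64511046359, 125270533467, 182175417799, 235146635338, 284128457170, 329087750589, 370013154228, 406914175716, 439820220222, 468779558243]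
def zm (d : ℕ) : ℤ := zmL.getD d 0

/-- a_s (scale 10^24), with the given table of powers of x0 -/
def aS (X : ℕ → ℤ) (cb s : ℕ) : ℤ :=
  ((selL cb).map (fun e => ((List.range e.2.2.1).map (fun j =>
    if s ≤ e.1 ∧ e.1 - s ≤ e.2.1 + j then (e.2.2.2 : ℤ) * X (e.1 - s) else 0)).sum)).sum

/-- 56 b_s (scale 10^24), upper bound -/
def bS (cb s : ℕ) : ℤ :=
  ((selL cb).map (fun e => ((List.range e.2.2.1).map (fun j =>
    (if s + 1 + (e.2.1 + j) = e.1 then
        cdiv ((e.2.2.2 : ℤ) * X0hi (e.2.1 + j + 1) * 10001) (10 ^ 4) else 0)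
      - (if s = e.1 then (e.2.2.2 : ℤ) * 10 ^ 10 else 0))).sum)).sum

def aX (cb s : ℕ) (x : ℤ) : ℤ := if 0 ≤ x then aS X0hi cb s * x else aS X0lo cb s * x
/-- the same with a factor between 1 and 1.0001 -/
def aXp (cb s : ℕ) (x : ℤ) : ℤ :=
  if 0 ≤ x then cdiv (aS X0hi cb s * x * 10001) (10 ^ 4) else aS X0lo cb s * x

/-- scale 10^34 -/
def loD (cb : ℕ) : ℤ :=
  ((List.range 16).map (fun s : ℕ => - aX cb s (W0N cb s)
    - aS X0hi cb s * (8 * 10 ^ 6 + cdiv |W0N cb s| (10 ^ 4) + 1))).sum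

def loDok (cb : ℕ) : Bool := decide (12276 * 10 ^ 27 ≤ loD cb)

/-- the weights u are admissible -/
def loUok (cb : ℕ) : Bool :=
  (selL cb).all (fun e => [(-1 : ℤ), 0, 1].all (fun ε =>
    let c : ℤ := (cb : ℤ) - 8 * e.1 + ε
    (List.range (dmt c)).all (fun d => decide (e.2.2.2 * min (d + 1) e.2.2.1 ≤ kct (d + 1) c))))
  && (selL cb).all (fun e => decide (e.1 ≤ 15 ∧ e.2.1 + e.2.2.1 ≤ e.1 + 1))

/-- own cycle: offset sp, cell c, d -/
def loOwn (cb sp : ℕ) (d : ℕ) : ℤ :=
  56 * ((List.range 16).map (fun s : ℕ => if sp < s then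
    aXp cb s (gT d (s - sp - 1) + 2) + aXp cb s (cdiv (zm d) (10 ^ 4)) else 0)).sum
    + bS cb sp * d * 10 ^ 10

def loOwnok (cb : ℕ) : Bool :=
  (List.range 16).all (fun sp => [(-1 : ℤ), 0, 1].all (fun ε =>
    let c : ℤ := (cb : ℤ) - 8 * sp + ε
    (List.range (dmt c)).all (fun d =>
      decide (loOwn cb sp (d + 1) * 10 ^ 4 ≤ 2300 * 56 * (kct (d + 1) c : ℤ) * 10 ^ 20))))

/-- past cycles -/
def chiL : List ℕ := [0, 6788, 475, 161, 1, 0, 0, 80, 52, 30, 23, 17, 10, 4, 0, 0, 1, 1, 1, 1, 1, 1, 1, 1, 0, 0]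
def loPast (cb : ℕ) (Lam : ℤ) (d : ℕ) : ℤ :=
  ((List.range 16).map (fun s : ℕ =>
    if 0 ≤ Lam + s - 1 ∧ Lam + s - 1 < 1200 then aXp cb s (gT d (Lam + s - 1).toNat + 2) else 0)).sum

def loPastok (cb q : ℕ) : Bool :=
  let l0 : ℤ := (-47 - (cb : ℤ) - qehi q + qF q) / 8
  (List.range 14).all (fun i =>
    let Lam : ℤ := l0 + i
    (List.range (qehi q - qelo q + 1).toNat).all (fun e =>
      let c : ℤ := (cb : ℤ) + 8 * Lam - qF q + qelo q + e
      (List.range (dmt c)).all (fun d =>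
        decide (loPast cb Lam (d + 1) * (10 ^ 4 + q + 2) ≤
          (chiL.getD q 0 : ℤ) * (kct (d + 1) c : ℤ) * 10 ^ 20))))

end SA
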