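import Pool.Agent.Helper88_SA.Base
import Pool.Agent.Helper88_SA.Chk

/-! Definitions of part P: modes, rest functional, phases, the induction predicate. -/

namespace SA

open Filter Topology

/-! ## short names for the greedy flow -/

noncomputable def Bn (T : ℝ) (n : ℕ) : ℝ := (gr T n).B
/-- B solves 56 B + D = cst -/
noncomputable def cst (T : ℝ) (n : ℕ) : ℝ := (gr T n).E + ∑ j ∈ Finset.range 56, (gr T n).Q j
noncomputable def Dn (T : ℝ) (n : ℕ) : ℝ :=
  ∑ j ∈ Finset.range 56, max ((gr T n).Q j - (gr T n).B) 0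
/-- mass with d searches done (1 ≤ d ≤ 55) -/
noncomputable def Nd (T : ℝ) (n d : ℕ) : ℝ := (gr T n).Q (d - 1) - (gr T n).Q d
/-- the part of it that pauses -/
noncomputable def pd (T : ℝ) (n d : ℕ) : ℝ :=
  (gr T n).Q (d - 1) - max ((gr T n).Q d) (min ((gr T n).Q (d - 1)) (gr T n).B)
/-- signed need of new searches -/
noncomputable def Wn (T : ℝ) (n : ℕ) : ℝ := (cst T n - cst T (n - 1)) / 56
def Valid (T : ℝ) (n : ℕ) : Prop := (gr T n).Q 55 ≤ (gr T n).B

/-! ## modes -/

noncomputable def PhiR (T x : ℝ) (n : ℕ) : ℝ :=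
  ∑ d ∈ Finset.Icc 1 55, Nd T n d * gam T x (56 - d)
    - ((gr T n).R + T * (gr T n).E) / (x - 1) - (gr T n).R / (x - 1) ^ 2

noncomputable def PhiC (T : ℝ) (x : ℂ) (n : ℕ) : ℂ :=
  ∑ d ∈ Finset.Icc 1 55, (Nd T n d : ℂ) * gam (T : ℂ) x (56 - d)
    - (((gr T n).R + T * (gr T n).E : ℝ) : ℂ) / (x - 1) - ((gr T n).R : ℂ) / (x - 1) ^ 2

/-- coefficients of the modes (any good rational approximations will do) -/
noncomputable def a0c : ℝ := (-175754569584033739501149782116523511003670119797620133861315522501856) / 10 ^ 75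
noncomputable def azc : ℝ := 334731190956066832408093705608781396818207947273109894094322362497122 / 10 ^ 75
noncomputable def a2c : ℂ := ⟨(-511579574387745688319579868186603685494508602186803848953416629586129) / 10 ^ 75, (-2261672374297335794469637142286534089969706084861774953854247615017621) / 10 ^ 75⟩
/-- centres of the enclosures of the roots, scale 10^65 -/
def x0N : ℕ := 103806656299914888258151497867404042934180545058261795610269412613
def zN : ℕ := 97274889192303257341744033388578115600421699746661431113982777846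
def thReN : ℕ := 102948352879251378034061994228739829081311836673148455699176835828
def thImN : ℕ := 13313337742947792797414287779285499218415810614068721679452410297

structure Roots (T x0 z : ℝ) (th : ℂ) : Prop where
  x0_enc : |x0 - (x0N : ℝ) / 10 ^ 65| ≤ 1 / 10 ^ 58
  z_enc : |z - (zN : ℝ) / 10 ^ 65| ≤ 1 / 10 ^ 58
  th_enc : ‖th - ⟨(thReN : ℝ) / 10 ^ 65, (thImN : ℝ) / 10 ^ 65⟩‖ ≤ 1 / 10 ^ 58
  x0_root : gam T x0 56 = 0
  z_root : gam T z 56 = 0
  th_root : gam (T : ℂ) th 56 = 0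

noncomputable def Cn (T x0 : ℝ) (n : ℕ) : ℝ := a0c * PhiR T x0 n
noncomputable def Zn (T : ℝ) (th : ℂ) (n : ℕ) : ℂ := a2c * PhiC T th n
noncomputable def zn (T z : ℝ) (n : ℕ) : ℝ := azc * PhiR T z n
/-- relative oscillation -/
noncomputable def xin (T x0 : ℝ) (th : ℂ) (n : ℕ) : ℂ := - Zn T th n / (Cn T x0 n : ℂ)
/-- relative growing mode -/
noncomputable def ztn (T x0 z : ℝ) (n : ℕ) : ℝ := zn T z n / Cn T x0 n

/-- change of the modes caused by a unit pause with d searches done -/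
noncomputable def cdc (T x0 : ℝ) (d : ℕ) : ℝ := a0c * (1 - 1 / x0) * gam T x0 (56 - d)
noncomputable def zec (T z : ℝ) (d : ℕ) : ℝ := azc * (1 - 1 / z) * gam T z (56 - d)
noncomputable def zdc (T : ℝ) (th : ℂ) (d : ℕ) : ℂ := a2c * (1 - 1 / th) * gam (T : ℂ) th (56 - d)

/-! ## rest functional -/

structure BV where
  r : ℕ → ℝ
  R : ℝ
  E : ℝ

/-- adjoint of the free step -/
noncomputable def badj (T : ℝ) (b : BV) : BV where
  r := fun r => if r = 0 then 0
    else (if r = 1 then 0 else b.r (r - 1)) - (b.R - b.E / T)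
      - (b.r 55 - (b.R - b.E / T)) * r / 56
  R := b.R - b.E / T
  E := b.E + (b.r 55 - (b.R - b.E / T)) / 56

noncomputable def brest0 (T x0 z : ℝ) (th : ℂ) : BV where
  r := fun r => if r = 0 then 0
    else - (r : ℝ) / 56 - a0c * gam T x0 r - azc * gam T z r - (a2c * gam (T : ℂ) th r).re
  R := a0c * (1 / (x0 - 1) + 1 / (x0 - 1) ^ 2) + azc * (1 / (z - 1) + 1 / (z - 1) ^ 2)
    + (a2c * (1 / (th - 1) + 1 / (th - 1) ^ 2)).re
  E := 1 / 56 + a0c * T / (x0 - 1) + azc * T / (z - 1) + (a2c * T / (th - 1)).re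

noncomputable def brest (T x0 z : ℝ) (th : ℂ) (l : ℕ) : BV := (badj T)^[l] (brest0 T x0 z th)

/-- value of a functional at state n -/
noncomputable def bval (T : ℝ) (b : BV) (n : ℕ) : ℝ :=
  ∑ d ∈ Finset.Icc 1 55, b.r (56 - d) * Nd T n d + b.R * (gr T n).R + b.E * (gr T n).E

/-- response of W after l steps to a pause with d searches done, without the three modes -/
noncomputable def Gd (T x0 z : ℝ) (th : ℂ) (d l : ℕ) : ℝ :=
  (brest T x0 z th l).r (56 - d) - (brest T x0 z th (l + 1)).r (56 - d)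
    + (if l = 0 then (56 - (d : ℝ)) / 56 else 0)

/-! ## phases; index k = n - 1525 -/

/-- angle of theta -/
noncomputable def omg (th : ℂ) : ℝ := th.arg
/-- the period in steps -/
noncomputable def per (th : ℂ) : ℝ := 2 * Real.pi / omg th

/-- lifted phase, in steps; decreases by about 1 in each step; 0 = minimum of W -/
noncomputable def ph (T x0 : ℝ) (th : ℂ) : ℕ → ℝ
  | 0 => (xin T x0 th 1525).arg / omg th
  | k + 1 => ph T x0 th k - 1 +
      (xin T x0 th (1525 + k + 1) * th / ((x0 : ℂ) * xin T x0 th (1525 + k))).arg / omg th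

/-- number of the cycle -/
noncomputable def cyc (T x0 : ℝ) (th : ℂ) (k : ℕ) : ℤ := ⌈(11 - ph T x0 th k) / per th⌉ - 1
/-- phase in [11 - per, 11) -/
noncomputable def pp (T x0 : ℝ) (th : ℂ) (k : ℕ) : ℝ :=
  ph T x0 th k + cyc T x0 th k * per th
noncomputable def cell (T x0 : ℝ) (th : ℂ) (k : ℕ) : ℤ := ⌊8 * pp T x0 th k⌋

/-- what holds in the good regime at n = 1525 + k -/
structure PP (T x0 z : ℝ) (th : ℂ) (k : ℕ) : Prop where
  Cpos : 0 < Cn T x0 (1525 + k)
  Alo : 0.9 ≤ ‖xin T x0 th (1525 + k)‖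
  Ahi : ‖xin T x0 th (1525 + k)‖ ≤ 1.0573
  zlo : 0 ≤ ztn T x0 z (1525 + k)
  zhi : ztn T x0 z (1525 + k) < 3 / 10 ^ 4
  val : Valid T (1525 + k)
  Dle : Dn T (1525 + k) ≤ Cn T x0 (1525 + k) * ((Dt (cell T x0 th k) : ℝ) / 10 ^ 6)
  kle : kap T (1525 + k) ≤ dmt (cell T x0 th k)
  Wle : Wn T (1525 + k) ≤ 4 * Cn T x0 (1525 + k)

/-- history before k -/
def HH (T x0 z : ℝ) (th : ℂ) (k : ℕ) : Prop := ∀ i, i < k → PP T x0 z th i

/-- what the simulation gives, for all T in the interval -/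
structure Sim (T x0 z : ℝ) (th : ℂ) : Prop where
  valid : ∀ n, n < 1525 → Valid T n
  kap_init : ∀ n, n < 171 → kap T n = kap0 n
  kap_quiet : ∀ n, 171 ≤ n → n < 1525 → kap T n = 0
  Cpos : 0 < Cn T x0 1525
  Wle : ∀ n, 245 ≤ n → n < 1525 → Wn T n ≤ 4 * (Cn T x0 1525 * x0 ^ (1525 - n))
  Abd : |‖xin T x0 th 1525‖ - 0.9217888| ≤ 1 / 10 ^ 6
  phase : 10.12 ≤ (xin T x0 th 1525).arg / omg th ∧ (xin T x0 th 1525).arg / omg th ≤ 10.14
  zsmall : |ztn T x0 z 1525| ≤ 1 / 10 ^ 8

end SA
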