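import Pool.Agent.Helper88_SA.AsmP
import Pool.Agent.Helper41_SA.SimF

/-! Last step of the assembly: the structure theorem. -/

namespace SA

theorem simStmt : SimStmt :=
  H41.simF algA.sort algA.bar H13.simA algA.pds algA.modr algA.modc H58.numroot

theorem structStmt : StructStmt := asmP simStmt

end SA
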