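import Pool.Agent.Helper88_SA.BaseP

/-! Part A of P: algebra of the greedy flow. -/

namespace SA

open Filter Topology

/-- A1 -/
def SortStmt : Prop := ∀ (T : ℝ) (n : ℕ),
  (∀ i j, i ≤ j → j < 56 → (gr T n).Q j ≤ (gr T n).Q i) ∧ (∀ j, 0 ≤ (gr T n).Q j) ∧
  (∀ j, 56 ≤ j → (gr T n).Q j = 0) ∧ (∀ j, j < 56 → (gr T n).Q j ≤ (gr T (n + 1)).Q j)

/-- A2 -/
def BarStmt : Prop := ∀ (T : ℝ) (n : ℕ), Valid T n →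
  ∑ j ∈ Finset.range 56, max (Bn T n - (gr T n).Q j) 0 = (gr T n).E ∧ 0 ≤ (gr T n).E ∧
  56 * Bn T n + Dn T n = cst T n

/-- A2b: a lower bound for the barrier -/
def BarGeStmt : Prop := ∀ (T : ℝ) (n : ℕ) (x : ℝ),
  56 * x + ∑ j ∈ Finset.range 56, max ((gr T n).Q j - x) 0 ≤ cst T n → x ≤ Bn T n

/-- A3: the list Q consists of the 56 largest earlier barriers -/
def TopStmt : Prop := ∀ (T : ℝ) (n : ℕ), (∀ m, m < n → Valid T m) → ∀ x, (gr T n).Q 55 ≤ x →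
  ∑ j ∈ Finset.range 56, max ((gr T n).Q j - x) 0 = ∑ m ∈ Finset.range n, max (Bn T m - x) 0 ∧
  ((Finset.range 56).filter (fun j => x < (gr T n).Q j)).card
    = ((Finset.range n).filter (fun m => x < Bn T m)).card

/-- A3b: sums over arbitrary sets of earlier times -/
def TopSetStmt : Prop := ∀ (T : ℝ) (n : ℕ), (∀ m, m ≤ n → Valid T m) → ∀ I : Finset ℕ,
  I ⊆ Finset.range n →
  ∑ m ∈ I, (Bn T m - Bn T n) ≤ ∑ d ∈ Finset.Icc (1 : ℕ) 55, (min d I.card : ℕ) * pd T n d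

/-- A4 -/
def QzeroStmt : Prop := ∀ (T : ℝ) (n : ℕ), (∀ m, m < n → Valid T m) →
  (∀ m, m < n → Bn T m ≤ (gr T n).Q 0) ∧
  ((gr T n).Q 0 = 0 ∨ ∃ m, m < n ∧ (gr T n).Q 0 = Bn T m) ∧
  (∀ m0, m0 < n → n ≤ m0 + 55 → (∀ m, m < m0 → Bn T m ≤ Bn T m0) → 0 ≤ Bn T m0 →
    (gr T n).Q 55 ≤ Bn T m0) ∧
  (kap T n = 0 → ∀ m, m < n → Bn T m ≤ Bn T n) ∧
  (kap T n = 0 ↔ (gr T n).Q 0 ≤ Bn T n)

/-- A5 -/
def CstepStmt : Prop := ∀ (T : ℝ) (n : ℕ), Valid T n →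
  (gr T (n + 1)).R = (gr T n).R - (Bn T n - (gr T n).Q 55) ∧
  (gr T (n + 1)).E = (gr T n).E - (gr T (n + 1)).R / T ∧
  cst T (n + 1) - cst T n = (Bn T n - (gr T n).Q 55) - (gr T (n + 1)).R / T

/-- A6: pauses -/
def PdStmt : Prop := ∀ (T : ℝ) (n : ℕ), (∀ m, m ≤ n → Valid T m) →
  (∀ d, 1 ≤ d → d ≤ 55 → 0 ≤ pd T n d ∧ pd T n d ≤ Nd T n d) ∧
  (∀ d, kap T n < d → d ≤ 55 → pd T n d = 0) ∧
  (kap T n ≤ 55 → ∑ d ∈ Finset.Icc (1 : ℕ) 55, (d : ℝ) * pd T n d = Dn T n) ∧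
  (0 < kap T n → 0 < Dn T n) ∧
  (∀ d, 1 ≤ d → d ≤ 55 → Nd T (n + 1) d =
    (if d = 1 then max (Bn T n - (gr T n).Q 0) 0 else Nd T n (d - 1) - pd T n (d - 1)) + pd T n d)

/-- A7 -/
def ModRStmt : Prop := ∀ (T x : ℝ) (n : ℕ), T ≠ 0 → x ≠ 0 → x ≠ 1 → gam T x 56 = 0 →
  (∀ m, m ≤ n → Valid T m) →
  x * PhiR T x (n + 1) = PhiR T x n
    + (x - 1) * ∑ d ∈ Finset.Icc (1 : ℕ) 55, pd T n d * gam T x (56 - d)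

def ModCStmt : Prop := ∀ (T : ℝ) (x : ℂ) (n : ℕ), T ≠ 0 → x ≠ 0 → x ≠ 1 → gam (T : ℂ) x 56 = 0 →
  (∀ m, m ≤ n → Valid T m) →
  x * PhiC T x (n + 1) = PhiC T x n
    + (x - 1) * ∑ d ∈ Finset.Icc (1 : ℕ) 55, (pd T n d : ℂ) * gam (T : ℂ) x (56 - d)

/-- A8 -/
def RestStepStmt : Prop := ∀ (T : ℝ) (b : BV) (n : ℕ), T ≠ 0 → (∀ m, m ≤ n → Valid T m) →
  bval T b (n + 1) = bval T (badj T b) n
    + ∑ d ∈ Finset.Icc (1 : ℕ) 55, pd T n d * (b.r (56 - d) - (badj T b).r (56 - d))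

/-- A9 -/
def WlinStmt : Prop := ∀ (T : ℝ) (n : ℕ), T ≠ 0 → (∀ m, m ≤ n → Valid T m) →
  56 * Wn T (n + 1) = ((gr T (n + 1)).E
      - ∑ d ∈ Finset.Icc (1 : ℕ) 55, (56 - (d : ℝ)) * Nd T (n + 1) d)
    + ∑ d ∈ Finset.Icc (1 : ℕ) 55, (56 - (d : ℝ)) * pd T n d

/-- A10: the formula for W -/
def WformStmt : Prop := ∀ (T x0 z : ℝ) (th : ℂ) (n : ℕ), Tlo ≤ T → T ≤ Thi → Roots T x0 z th →
  1201 ≤ n → (∀ m, m < n → Valid T m) →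
  Wn T n = Cn T x0 n + (Zn T th n).re + zn T z n + bval T (brest T x0 z th 1200) (n - 1200)
    + ∑ l ∈ Finset.range 1200, ∑ d ∈ Finset.Icc (1 : ℕ) 55, pd T (n - 1 - l) d * Gd T x0 z th d l

/-- A11: every class is part of one start -/
def NboundStmt : Prop := ∀ (T : ℝ) (n : ℕ), 300 ≤ n → (∀ m, m < n → Valid T m) →
  (∀ m, 171 ≤ m → m < n → kap T m ≤ 10) →
  (∀ m m', 171 ≤ m → m < m' → m' < n → 0 < kap T m → 0 < kap T m' → m' ≤ m + 9 ∨ m + 39 ≤ m') →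
  ∀ d, 1 ≤ d → d ≤ 55 → ∃ m, m < n ∧ n ≤ m + d + 10 ∧ Nd T n d ≤ max (Bn T m - (gr T m).Q 0) 0

/-- A12 -/
def WposStmt : Prop := ∀ (T : ℝ) (m : ℕ), 1 ≤ m → (∀ i, i ≤ m → Valid T i) →
  Bn T m - (gr T m).Q 0 ≤ max (Wn T m) 0

/-- A13 -/
def EbdStmt : Prop := ∀ (T : ℝ) (n : ℕ), 0 < T → (∀ m, m ≤ n → Valid T m) →
  (gr T n).E ≤ ∑ d ∈ Finset.Icc (1 : ℕ) 55, (56 - (d : ℝ)) * Nd T n d
    + 56 * max (Bn T n - (gr T n).Q 0) 0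

end SA
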