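import Pool.Agent.Helper88_SA.Base

/-! Statements of the modules of part DUAL. -/

namespace SA

open Filter Topology

/-- a solution of the dual recursion for all states (thresholds 56 - κ n) -/
structure DualSol (T z : ℝ) (κ : ℕ → ℕ) (N : ℕ) (S y : ℕ → ℝ) (D : ℕ → ℕ → ℝ) : Prop where
  S_pos : ∀ n, 0 < S n
  y_pos : ∀ n, 0 < y n
  D_pos : ∀ n r, 1 ≤ r → r ≤ 56 → 0 < D n r
  S_step : ∀ n, S n = S (n + 1) + y n / T
  y_def : ∀ n, y n = D (n + 1) (56 - κ n) / ((56 - κ n : ℕ) : ℝ)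
  D_zero : ∀ n, D n 0 = 0
  D_search : ∀ n r, 1 ≤ r → r ≤ 56 - κ n → D n r = S n + y n + D (n + 1) (r - 1)
  D_wait : ∀ n r, 56 - κ n < r → r ≤ 56 → D n r = S n + D (n + 1) r
  cut0 : ∀ n, N ≤ n → κ n = 0
  geo : ∀ n, N ≤ n → y n = T * (1 - z) / z * S (n + 1)

/-- thresholds extended by 0 after N -/
def cut (κ : ℕ → ℕ) (N n : ℕ) : ℕ := if n < N then κ n else 0

/-- D1: existence of the solution, and its relation to dprof -/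
def DsolStmt : Prop := ∀ (T z : ℝ) (κ : ℕ → ℕ) (N : ℕ), 1 < T → 0 < z → z < 1 →
  gam T z 56 = 0 → (∀ n, κ n ≤ 55) → ∃ (S y : ℕ → ℝ) (D : ℕ → ℕ → ℝ),
    DualSol T z (cut κ N) N S y D ∧
    ∀ m, m ≤ N → (dprof T z κ N m).1 = S (N - m) ∧
      ∀ r, r ≤ 56 → (dprof T z κ N m).2 r = D (N - m) r

/-- D2: enclosure of z -/
def ZencStmt : Prop := ∀ T z : ℝ, Tlo ≤ T → T ≤ Thi → 0 < z → z < 1 → gam T z 56 = 0 →
  0.972748891922 ≤ z ∧ z ≤ 0.972748891924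

/-- D3: no waiting below index 47 -/
def LowStmt : Prop := ∀ (T z : ℝ) (κ : ℕ → ℕ) (N : ℕ) (S y : ℕ → ℝ) (D : ℕ → ℕ → ℝ),
  DualSol T z κ N S y D → (∀ n, 171 ≤ n → κ n ≤ 10) → ∀ n r, 171 ≤ n → r ≤ 46 →
  D n r = ∑ l ∈ Finset.range r, (S (n + l) + y (n + l))

/-- D4: the path above index 46 -/
def PathStmt : Prop := ∀ (T z : ℝ) (κ : ℕ → ℕ) (N : ℕ) (S y : ℕ → ℝ) (D : ℕ → ℕ → ℝ),
  DualSol T z κ N S y D → (∀ n, 171 ≤ n → κ n ≤ 10) →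
  (∀ n n', 171 ≤ n → n < n' → 0 < κ n → 0 < κ n' → n' ≤ n + 9 ∨ n + 39 ≤ n') →
  ∀ n r, 171 ≤ n → 46 ≤ r → r ≤ 56 → ∃ (L : ℕ) (W : Finset ℕ), W ⊆ Finset.range L ∧
    L = (r - 46) + W.card ∧ W.card ≤ 10 ∧ (r = 46 → W.card = 0) ∧
    D n r = ∑ l ∈ Finset.range L, S (n + l) + ∑ l ∈ Finset.range L \ W, y (n + l)
      + D (n + L) 46

/-- D5: the range of y n / S (n+1) -/
def RangeStmt : Prop := ∀ (T z : ℝ) (κ : ℕ → ℕ) (N : ℕ) (S y : ℕ → ℝ) (D : ℕ → ℕ → ℝ),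
  Tlo ≤ T → T ≤ Thi → 0.972748891922 ≤ z → z ≤ 0.972748891924 →
  DualSol T z κ N S y D → (∀ n, 171 ≤ n → κ n ≤ 10) →
  (∀ n n', 171 ≤ n → n < n' → 0 < κ n → 0 < κ n' → n' ≤ n + 9 ∨ n + 39 ≤ n') →
  ∀ n, 171 ≤ n → 0.87 * S (n + 1) ≤ y n ∧ y n ≤ 1.2 * S (n + 1)

/-- D5a: one step, upper bound -/
def RangeUpStmt : Prop := ∀ (T z : ℝ) (κ : ℕ → ℕ) (N : ℕ) (S y : ℕ → ℝ) (D : ℕ → ℕ → ℝ),
  Tlo ≤ T → T ≤ Thi → DualSol T z κ N S y D → (∀ n, 171 ≤ n → κ n ≤ 10) →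
  (∀ n n', 171 ≤ n → n < n' → 0 < κ n → 0 < κ n' → n' ≤ n + 9 ∨ n + 39 ≤ n') →
  ∀ n, 171 ≤ n → (∀ j, n < j → 0.87 * S (j + 1) ≤ y j ∧ y j ≤ 1.2 * S (j + 1)) →
  y n ≤ 1.2 * S (n + 1)

/-- D5b: one step, lower bound; the second bound is used in TAILW -/
def RangeLoStmt : Prop := ∀ (T z : ℝ) (κ : ℕ → ℕ) (N : ℕ) (S y : ℕ → ℝ) (D : ℕ → ℕ → ℝ),
  Tlo ≤ T → T ≤ Thi → DualSol T z κ N S y D → (∀ n, 171 ≤ n → κ n ≤ 10) →
  (∀ n n', 171 ≤ n → n < n' → 0 < κ n → 0 < κ n' → n' ≤ n + 9 ∨ n + 39 ≤ n') →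
  ∀ n, 171 ≤ n → (∀ j, n < j → 0.87 * S (j + 1) ≤ y j ∧ y j ≤ 1.2 * S (j + 1)) →
  0.87 * S (n + 1) ≤ y n ∧ (56 - κ n ≤ 54 → 0.89 * S (n + 1) ≤ y n) ∧
    (56 - κ n ≤ 52 → 0.91 * S (n + 1) ≤ y n) ∧ (56 - κ n ≤ 49 → 0.93 * S (n + 1) ≤ y n)

/-- the two inequalities of the dual certificate at state n -/
def WAt (κ : ℕ → ℕ) (y : ℕ → ℝ) (D : ℕ → ℕ → ℝ) (n : ℕ) : Prop :=
  ∀ r, 1 ≤ r → r ≤ 56 → (r ≤ 56 - κ n → (r : ℝ) * y n ≤ D (n + 1) r) ∧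
    (56 - κ n < r → D (n + 1) r ≤ (r : ℝ) * y n)

/-- D6 -/
def TailWStmt : Prop := ∀ (T z : ℝ) (κ : ℕ → ℕ) (N : ℕ) (S y : ℕ → ℝ) (D : ℕ → ℕ → ℝ),
  Tlo ≤ T → T ≤ Thi → 0.972748891922 ≤ z → z ≤ 0.972748891924 →
  DualSol T z κ N S y D → (∀ n, 171 ≤ n → κ n ≤ 10) →
  (∀ n n', 171 ≤ n → n < n' → 0 < κ n → 0 < κ n' → n' ≤ n + 9 ∨ n + 39 ≤ n') →
  ∀ n, 171 ≤ n → WAt κ y D n

/-- D7: contraction in the quiet stretch -/
def ContrStmt : Prop := ∀ (T z : ℝ) (κ : ℕ → ℕ) (N : ℕ) (S y : ℕ → ℝ) (D : ℕ → ℕ → ℝ),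
  Tlo ≤ T → T ≤ Thi → DualSol T z κ N S y D → (∀ n, 171 ≤ n → n ≤ 8000 → κ n = 0) →
  (∀ n, 171 ≤ n → 0.87 * S (n + 1) ≤ y n ∧ y n ≤ 1.2 * S (n + 1)) →
  ∀ n, 171 ≤ n → n ≤ 7000 → 1.0351 * S (n + 1) ≤ y n ∧ y n ≤ 1.0355 * S (n + 1)

/-- D8: bounds for 10^9 * D 171 r / S 171 -/
def Dlo : List ℕ :=
  [0,2006896906,3959091874,5858075914,7705299394,9502173149,11250069563,12950323607,
   14604233870,16213063543,17778041386,19300362668,20781190077,22221654610,23622856438,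
   24985865743,26311723538,27601442460,28856007546,30076376984,31263482842,32418231786,
   33541505767,34634162698,35697037106,36730940773,37736663354,38714972980,39666616845,
   40592321778,41492794794,42368723640,43220777316,44049606586,44855844478,45640106763,
   46402992432,47145084145,47866948683,48569137377,49252186532,49916617833,50562938747,
   51191642909,51803210496,52398108602,52976791585,53539701420,54087268036,54619909643,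
   55138033051,55642033982,56132297373,56609197666,57073099101,57524355985,57963312973]
def Dhi : List ℕ :=
  [0,2007275404,3959859111,5859241291,7706871512,9504159848,11252477948,12953160092,
   14607504205,16216772846,17782194175,19304962887,20786241127,22227159375,23628817309,
   24992284644,26318601949,27608781441,28863807757,30084638707,31272206002,32427415968,
   33551150238,34644266420,35707598758,36741958764,37748135840,38726897878,39678991848,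
   40605144368,41506062258,42382433080,43234925659,44064190602,44870860784,45655551840,
   46418862628,47161375691,47883657699,48586259883,49269718452,49934555009,50581276942,
   51210377815,51822337745,52417623766,52996690188,53559978943,54107919919,54640931294,
   55159419850,55663781287,56154400524,56631651989,57095899910,57547498593,57986792688]

/-- D8 -/
def BndStmt : Prop := ∀ (T z : ℝ) (κ : ℕ → ℕ) (N : ℕ) (S y : ℕ → ℝ) (D : ℕ → ℕ → ℝ),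
  Tlo ≤ T → T ≤ Thi → DualSol T z κ N S y D → (∀ n, 171 ≤ n → n ≤ 8000 → κ n = 0) →
  (∀ n, 171 ≤ n → n ≤ 7000 → 1.0351 * S (n + 1) ≤ y n ∧ y n ≤ 1.0355 * S (n + 1)) →
  ∀ r, r ≤ 56 → (Dlo.getD r 0 : ℝ) * S 171 ≤ 10 ^ 9 * D 171 r ∧
    10 ^ 9 * D 171 r ≤ (Dhi.getD r 0 : ℝ) * S 171

/-- D9 -/
def InitWStmt : Prop := ∀ (T z : ℝ) (κ : ℕ → ℕ) (N : ℕ) (S y : ℕ → ℝ) (D : ℕ → ℕ → ℝ),
  Tlo ≤ T → T ≤ Thi → DualSol T z κ N S y D → (∀ n, n < 171 → κ n = kap0 n) →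
  (∀ r, r ≤ 56 → (Dlo.getD r 0 : ℝ) * S 171 ≤ 10 ^ 9 * D 171 r ∧
    10 ^ 9 * D 171 r ≤ (Dhi.getD r 0 : ℝ) * S 171) →
  ∀ n, n < 171 → WAt κ y D n

/-- D10 -/
def DualFinStmt : Prop := DsolStmt → ZencStmt → RangeStmt → TailWStmt → ContrStmt → BndStmt →
  InitWStmt → DualStmt

end SA
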