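import Pool.Agent.Helper88_SA.Base

/-! Statements of the modules of part GAME. -/

namespace SA

open Filter Topology

/-- G1 -/
def PayStmt : Prop := ∀ (T : ℝ) (s : Finset ℕ), IsStrategy 56 s → ∀ n : ℕ,
  56 * payoff 56 T s (n + 1) = ∑ j ∈ Finset.range (n + 1), ((56 : ℝ) - (cnt s (j + 1) : ℝ))
    + (if n + 1 ∈ s then T * (56 - (cnt s (n + 1) : ℝ)) else 0)

/-- G2 -/
def FlowQStmt : Prop := ∀ q : Finset ℕ → ℝ, (∀ s, 0 ≤ q s) → (∀ s, q s ≠ 0 → IsStrategy 56 s) →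
  HasSum q 1 → ∃ mu sg : ℕ → ℕ → ℝ, IsFlow mu sg ∧
    Tendsto (fun n => fR mu n) atTop (𝓝 0) ∧
    ∀ T : ℝ, 0 < T → ∀ n, fC mu n + T * fE sg n = 56 * ∑' s, q s * payoff 56 T s (n + 1)

/-- G3 potential inequality -/
def PotStmt : Prop := ∀ (mu sg V : ℕ → ℕ → ℝ) (S y : ℕ → ℝ) (a b : ℕ), IsFlow mu sg → a ≤ b →
  (∀ n, V n 0 = 0) →
  (∀ n r, a ≤ n → n < b → 1 ≤ r → r ≤ 56 → V n r ≤ r * S n + V (n + 1) r) →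
  (∀ n r, a ≤ n → n < b → 1 ≤ r → r ≤ 56 → V n r ≤ r * S n + r * y n + V (n + 1) (r - 1)) →
  ∑ r ∈ Finset.range 57, mu a r * V a r ≤
    ∑ n ∈ Finset.Ico a b, (S n * fR mu n + y n * fE sg n) + ∑ r ∈ Finset.range 57, mu b r * V b r

/-- G3e potential equality -/
def PotEqStmt : Prop := ∀ (mu sg V : ℕ → ℕ → ℝ) (S y : ℕ → ℝ) (a b : ℕ), IsFlow mu sg → a ≤ b →
  (∀ n, V n 0 = 0) →
  (∀ n r, a ≤ n → n < b → 1 ≤ r → r ≤ 56 →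
    (mu n r - sg n r) * (r * S n + V (n + 1) r - V n r) = 0) →
  (∀ n r, a ≤ n → n < b → 1 ≤ r → r ≤ 56 →
    sg n r * (r * S n + r * y n + V (n + 1) (r - 1) - V n r) = 0) →
  ∑ r ∈ Finset.range 57, mu a r * V a r =
    ∑ n ∈ Finset.Ico a b, (S n * fR mu n + y n * fE sg n) + ∑ r ∈ Finset.range 57, mu b r * V b r

/-- G4 Abel summation -/
def AbelStmt : Prop := ∀ (T : ℝ) (P S : ℕ → ℝ) (mu sg : ℕ → ℕ → ℝ) (N : ℕ),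
  (∀ n, n < N → S n = S (n + 1) + P n) →
  ∑ n ∈ Finset.range N, (S n * fR mu n + T * P n * fE sg n) =
    ∑ n ∈ Finset.range N, P n * (fC mu n + T * fE sg n) + S N * ∑ j ∈ Finset.range N, fR mu j

/-- G5 geometric test -/
def GeoGenStmt : Prop := ∀ (T z c : ℝ) (mu sg : ℕ → ℕ → ℝ) (n : ℕ), 0 < T → 0 < z → z < 1 →
  (∀ r, r ≤ 56 → 0 ≤ gam T z r) → gam T z 56 = 0 → IsFlow mu sg →
  (∀ m, n ≤ m → fC mu m + T * fE sg m ≤ c) →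
  0 ≤ (c - ∑ j ∈ Finset.range n, fR mu j) / (1 - z) - fR mu n / (1 - z) ^ 2
    + ∑ r ∈ Finset.range 56, mu n r * gam T z r

def GeoTestStmt : Prop := ∀ (T z : ℝ) (mu sg : ℕ → ℕ → ℝ), 0 < T → 0 < z → z < 1 →
  (∀ r, r ≤ 56 → 0 ≤ gam T z r) → gam T z 56 = 0 → IsFlow mu sg →
  (∀ N, FeasibleTo T mu sg N) → ∀ n, 0 ≤ Om T z mu n

def GeoSlackStmt : Prop := ∀ (T T' z : ℝ) (mu sg : ℕ → ℕ → ℝ), 0 < T' → T' < T → 0 < z → z < 1 →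
  (∀ r, r ≤ 56 → 0 ≤ gam T z r) → gam T z 56 = 0 → IsFlow mu sg →
  (∀ N, FeasibleTo T' mu sg N) → Tendsto (fun n => fR mu n) atTop (𝓝 0) →
  ∃ δ : ℝ, 0 < δ ∧ ∀ᶠ n in atTop, δ ≤ Om T z mu n

/-- tail sums of p, index of states -/
noncomputable def tailS (p : ℕ → ℝ) (n : ℕ) : ℝ := ∑' j, p (n + 1 + j)

/-- G6 cost-to-go from a hider strategy -/
def VpStmt : Prop := ∀ (T : ℝ) (p : ℕ → ℝ) (q : Finset ℕ → ℝ), IsEquilibrium 56 T p q →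
  ∃ V : ℕ → ℕ → ℝ, (∀ n, V n 0 = 0) ∧ (∀ n r, 0 ≤ V n r) ∧
    (∀ n r, 1 ≤ r → r ≤ 56 → V n r ≤ r * tailS p n + V (n + 1) r) ∧
    (∀ n r, 1 ≤ r → r ≤ 56 → V n r ≤ r * tailS p n + r * (T * p (n + 1)) + V (n + 1) (r - 1)) ∧
    56 * T ≤ V 0 56 ∧ (∀ n r, r ≤ 56 → V n r ≤ 56 * 56 * (1 + T) * tailS p n)

/-- optimal gains over waiting for ever, geometric tail with ratio z -/
noncomputable def gain (T z : ℝ) : ℕ → ℝ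
  | 0 => 0
  | r + 1 => max 0 (z / (1 - z) ^ 2 - ((r : ℝ) + 1) * T + z * gain T z r)

noncomputable def Psi (T z : ℝ) (mu : ℕ → ℕ → ℝ) (n : ℕ) : ℝ :=
  (56 * T - ∑ j ∈ Finset.range n, fR mu j) / (1 - z) - fR mu n / (1 - z) ^ 2
    + ∑ r ∈ Finset.range 57, mu n r * gain T z r

/-- hypothesis (a) unpacked -/
def GeoTail (p : ℕ → ℝ) (x : ℕ) (z : ℝ) : Prop :=
  1 ≤ x ∧ ∀ j, x < j → 0 < p (j - 1) ∧ p j / p (j - 1) = z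

/-- G7 -/
def PsiStmt : Prop := ∀ (T : ℝ) (p : ℕ → ℝ) (q : Finset ℕ → ℝ) (x : ℕ) (z : ℝ),
  IsEquilibrium 56 T p q → GeoTail p x z → 0 < z ∧ z < 1 ∧
    ∀ (mu sg : ℕ → ℕ → ℝ) (n : ℕ), IsFlow mu sg → x ≤ n → FeasibleTo T mu sg n → Psi T z mu n ≤ 0

/-- G8 -/
def GreedyFlowStmt : Prop := ∀ T : ℝ, 1 < T → Struct T →
  IsFlow (gmu T) (gsg T) ∧ (∀ n, fR (gmu T) n = (gr T n).R) ∧ (∀ n, fE (gsg T) n = (gr T n).E) ∧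
    (∀ n, fC (gmu T) n + T * fE (gsg T) n = 56 * T)

/-- G9 -/
def UbStmt : Prop := ∀ Ts : ℝ, Tlo ≤ Ts → Struct Ts →
  ∀ (T : ℝ) (p : ℕ → ℝ) (q : Finset ℕ → ℝ), IsEquilibrium 56 T p q → T ≤ Ts

/-- G10 -/
def DomStmt : Prop := ∀ (T z : ℝ) (N : ℕ), 1 < T → 0 < z → z < 1 → gam T z 56 = 0 → Struct T →
  Wcond T z (kap T) N → ∀ mu sg : ℕ → ℕ → ℝ, IsFlow mu sg → FeasibleTo T mu sg N →
  Om T z mu N ≤ Om T z (gmu T) N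

/-- G11 -/
def LbStmt : Prop := DualStmt → ∀ Ts : ℝ, Tlo ≤ Ts → Ts ≤ Thi → Struct Ts →
  ∀ (T : ℝ) (p : ℕ → ℝ) (q : Finset ℕ → ℝ), IsEquilibrium 56 T p q → Ts ≤ T

/-- G12 -/
def RatioStmt : Prop := ∀ (T : ℝ) (p : ℕ → ℝ) (q : Finset ℕ → ℝ) (x : ℕ) (z : ℝ),
  1 < T → IsEquilibrium 56 T p q → GeoTail p x z → Struct T → gam T z 56 = 0

/-- G13 -/
def KickOmStmt : Prop := ∀ (T z : ℝ), 1 < T → 0 < z → z < 1 → gam T z 56 = 0 → Struct T →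
  ∀ n, z * Om T z (gmu T) (n + 1) = Om T z (gmu T) n
    - (1 - z) * ∑ r ∈ Finset.range 56, (gmu T n r - gsg T n r) * gam T z r

def KickPosStmt : Prop := ∀ (T z : ℝ), 1 < T → 0 < z → z < 1 → gam T z 56 = 0 → Struct T →
  ∀ n, 0 ≤ ∑ r ∈ Finset.range 56, (gmu T n r - gsg T n r) * gam T z r ∧
    (0 < kap T n → 0 < ∑ r ∈ Finset.range 56, (gmu T n r - gsg T n r) * gam T z r)

/-- G14 -/
def GamPosStmt : Prop := ∀ (T z : ℝ), 0 < T → 0 < z → z < 1 → gam T z 56 = 0 →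
  ∀ r, 1 ≤ r → r ≤ 55 → 0 < gam T z r

def GamGainStmt : Prop := ∀ (T z : ℝ), 0 < T → 0 < z → z < 1 → gam T z 56 = 0 →
  ∀ r, r ≤ 56 → gain T z r = gam T z r

def ZexStmt : Prop := ∀ T : ℝ, 0 < T → ∃ z : ℝ, 0 < z ∧ z < 1 ∧ gam T z 56 = 0

/-- G15 -/
def GameFinStmt : Prop := PsiStmt → GreedyFlowStmt → UbStmt → LbStmt → RatioStmt → KickOmStmt →
  KickPosStmt → GamPosStmt → GamGainStmt → GeoTestStmt → GameStmt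

end SA
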